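import Pool.Agent.N193.DE.T2

set_option autoImplicit false

/-!
Flat families: translates, and residue classes with small Fourier coefficients.
-/

namespace Pool.Agent.N193.DE

open Finset Filter Topology
open Pool.Agent.H807R2.Dav (ee norm_ee ee_add dd dd_ge KK KK_nonneg KK_le' geo_bound vino_block)
open Pool.Agent.H373R2.T7 (orth conj_ee)

variable {J : Type}

/-- translates of flat families are flat -/
lemma Flat.shift {C η : ℝ} {M : ℕ} {s : Finset J} {v w : J → ℕ} (h : Flat C η M s v) (a : ℤ)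
    (hw : ∀ j ∈ s, ((w j : ℕ) : ℤ) = v j + a) : Flat C η M s w := by
  intro k h1 h2
  refine le_trans (le_of_eq ?_) (h k h1 h2)
  have e : ∑ j ∈ s, ee ((k : ℝ) / M * w j) = ee ((k : ℝ) / M * a) * ∑ j ∈ s, ee ((k : ℝ) / M * v j) := by
    rw [mul_sum]
    refine sum_congr rfl fun j hj => ?_
    rw [← ee_add]
    congr 1
    have : ((w j : ℕ) : ℝ) = v j + a := by exact_mod_cast hw j hj
    rw [this]
    ring
  rw [e, norm_mul, norm_ee, one_mul]

/-- the members of the interval of length `m` in the residue classes -/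
def mem (m : ℕ) (S : Finset ℕ) (c : ℕ) : Finset ℕ := (Ico c (c + m)).filter fun n => n % m ∈ S

lemma mem_card (m : ℕ) (S : Finset ℕ) (hS : S ⊆ range m) (c : ℕ) : (mem m S c).card = S.card := by
  unfold mem
  rw [Nat.filter_Ico_card_eq_of_periodic c m (fun n => n % m ∈ S) (fun n => by simp), Nat.count_eq_card_filter_range]
  congr 1
  ext n
  rw [mem_filter, mem_range]
  constructor
  · rintro ⟨h1, h2⟩
    rwa [Nat.mod_eq_of_lt h1] at h2
  · intro h
    have h1 := mem_range.1 (hS h)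
    exact ⟨h1, by rwa [Nat.mod_eq_of_lt h1]⟩

/-- the indicator of the residue classes -/
lemma ind_eq (m : ℕ) (hm : 1 ≤ m) (S : Finset ℕ) (hS : S ⊆ range m) (n : ℕ) :
    (if n % m ∈ S then (1 : ℂ) else 0) =
      1 / m * ∑ a ∈ range m, ∑ r ∈ S, ee ((a : ℝ) * ((((n : ℤ) - r : ℤ) : ℝ) / m)) := by
  have hm0 : (m : ℂ) ≠ 0 := by exact_mod_cast (by omega : m ≠ 0)
  rw [sum_comm]
  have h1 : ∀ r ∈ S, ∑ a ∈ range m, ee ((a : ℝ) * ((((n : ℤ) - r : ℤ) : ℝ) / m)) = if n % m = r then (m : ℂ) else 0 := by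
    intro r hr
    rw [orth m hm]
    have hrm := mem_range.1 (hS hr)
    by_cases h : n % m = r
    · rw [if_pos h, if_pos]
      have h2 : (m : ℤ) ∣ (n : ℤ) - (n % m : ℕ) := by
        rw [Int.natCast_mod]
        exact Int.dvd_self_sub_emod
      rwa [h] at h2
    · rw [if_neg h, if_neg]
      intro hd
      apply h
      have h3 : n ≡ r [MOD m] := by
        rw [Nat.ModEq.comm, Nat.modEq_iff_dvd]
        exact hd
      rw [h3, Nat.mod_eq_of_lt hrm]
  rw [sum_congr rfl h1, sum_ite_eq S]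
  split_ifs
  · field_simp
  · simp

/-- a residue family with small Fourier coefficients is flat -/
theorem flat_res (m : ℕ) (hm : 1 ≤ m) (S : Finset ℕ) (hS : S ⊆ range m) (δ : ℝ) (hδ : 0 ≤ δ)
    (hF : ∀ a : ℕ, 1 ≤ a → a < m → ‖∑ r ∈ S, ee ((a : ℝ) * r / m)‖ ≤ δ * S.card) (c M : ℕ) :
    Flat ((M : ℝ) / m) (δ * (42 + 3 * Real.log m)) M (mem m S c) (fun n => n) := by
  intro k hk hkM
  have hm0 : (0 : ℝ) < m := by exact_mod_cast hm
  have hM0 : (0 : ℝ) < M := by exact_mod_cast (by omega : 0 < M)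
  have hk0 : (0 : ℝ) < k := by exact_mod_cast hk
  have hkM' : (0 : ℝ) < M - k := by
    have : (k : ℝ) < M := by exact_mod_cast hkM
    linarith
  rw [mem_card m S hS]
  obtain ⟨α, hα⟩ : ∃ α : ℝ, α = k / M := ⟨_, rfl⟩
  rw [← hα]
  have hlm : 0 ≤ Real.log m := Real.log_nonneg (by exact_mod_cast hm)
  -- the expansion
  have h1 : ∑ n ∈ mem m S c, ee (α * n) =
      1 / m * ∑ a ∈ range m, (∑ r ∈ S, ee (-((a : ℝ) * r / m))) * ∑ n ∈ Ico c (c + m), ee ((n : ℝ) * (α + a * (1 / m))) := by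
    unfold mem
    rw [sum_filter]
    have e1 : ∀ n ∈ Ico c (c + m), (if n % m ∈ S then ee (α * n) else 0) =
        1 / m * ∑ a ∈ range m, ∑ r ∈ S, ee (-((a : ℝ) * r / m)) * ee ((n : ℝ) * (α + a * (1 / m))) := by
      intro n _
      have e2 : (if n % m ∈ S then ee (α * n) else 0) = (if n % m ∈ S then (1 : ℂ) else 0) * ee (α * n) := by
        split_ifs <;> simp
      rw [e2, ind_eq m hm S hS n, mul_assoc, sum_mul]
      congr 1
      refine sum_congr rfl fun a _ => ?_
      rw [sum_mul]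
      refine sum_congr rfl fun r _ => ?_
      rw [← ee_add, ← ee_add]
      congr 1
      push_cast
      ring
    rw [sum_congr rfl e1, ← mul_sum, sum_comm]
    congr 1
    refine sum_congr rfl fun a _ => ?_
    rw [sum_comm, sum_mul_sum]
  have hneg : ∀ a : ℕ, ‖∑ r ∈ S, ee (-((a : ℝ) * r / m))‖ = ‖∑ r ∈ S, ee ((a : ℝ) * r / m)‖ := by
    intro a
    rw [← Complex.norm_conj, map_sum]
    congr 1
    refine sum_congr rfl fun r _ => ?_
    rw [conj_ee, neg_neg]
  have hgeo : ∀ a : ℕ, ‖∑ n ∈ Ico c (c + m), ee ((n : ℝ) * (α + a * (1 / m)))‖ ≤ KK m (α + a * (1 / m)) := by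
    intro a
    exact geo_bound c (c + m) (by omega) (by push_cast; linarith) _
  have hvino : ∑ a ∈ range m, KK m (α + a * (1 / m)) ≤ 39 * m + 3 * m * (1 + Real.log m) := by
    apply vino_block hm (a := 1) isCoprime_one_left _ hm0.le
    simp
  -- the main term
  have hdd : 4 * min α (1 - α) ≤ dd α := by
    apply dd_ge
    · rw [hα]; positivity
    · rw [hα, div_le_one hM0]; linarith
  have hmin : 0 < min α (1 - α) := by
    apply lt_min
    · rw [hα]; positivity
    · rw [hα, sub_pos, div_lt_one hM0]; linarith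
  have hK0 : KK m (α + (0 : ℕ) * (1 / m)) ≤ M * (1 / k + 1 / (M - k)) := by
    rw [Nat.cast_zero, zero_mul, add_zero]
    refine (KK_le' hm0.le (by positivity) hdd).trans ?_
    have h2 : 3 / (4 * min α (1 - α)) ≤ 1 / min α (1 - α) := by
      rw [div_le_div_iff₀ (by positivity) hmin]
      linarith
    refine h2.trans ?_
    have e3 : 1 / α = M * (1 / k) := by rw [hα]; field_simp
    have e4 : 1 / (1 - α) = M * (1 / (M - k)) := by rw [hα]; field_simp
    rcases min_cases α (1 - α) with ⟨h3, _⟩ | ⟨h3, _⟩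
    · rw [h3, e3, mul_add]
      have : 0 ≤ (M : ℝ) * (1 / (M - k)) := by positivity
      linarith
    · rw [h3, e4, mul_add]
      have : 0 ≤ (M : ℝ) * (1 / k) := by positivity
      linarith
  rw [h1, norm_mul]
  have hcard : (0 : ℝ) ≤ S.card := Nat.cast_nonneg _
  have hterm : ∀ a ∈ range m, ‖(∑ r ∈ S, ee (-((a : ℝ) * r / m))) * ∑ n ∈ Ico c (c + m), ee ((n : ℝ) * (α + a * (1 / m)))‖ ≤
      (if a = 0 then (S.card : ℝ) * ((M : ℝ) * (1 / (k : ℝ) + 1 / ((M : ℝ) - k))) else 0) + δ * S.card * KK m (α + a * (1 / m)) := by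
    intro a ha
    rw [norm_mul, hneg]
    have hKn := KK_nonneg hm0.le (α + a * (1 / m))
    by_cases h0 : a = 0
    · rw [if_pos h0]
      have e5 : ‖∑ r ∈ S, ee ((a : ℝ) * r / m)‖ ≤ S.card := by
        refine (norm_sum_le _ _).trans ?_
        simp [norm_ee]
      have e6 := hgeo a
      have e7 : KK m (α + a * (1 / m)) ≤ M * (1 / k + 1 / (M - k)) := by rw [h0]; exact hK0
      have e8 : 0 ≤ δ * S.card * KK m (α + a * (1 / m)) := by positivity
      have e9 := mul_le_mul e5 (e6.trans e7) (norm_nonneg _) hcard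
      linarith
    · rw [if_neg h0, zero_add]
      exact mul_le_mul (hF a (by omega) (mem_range.1 ha)) (hgeo a) (norm_nonneg _) (by positivity)
  have h4 := (norm_sum_le _ _).trans (sum_le_sum hterm)
  rw [sum_add_distrib, sum_ite_eq' (range m) 0, if_pos (mem_range.2 (by omega)), ← mul_sum] at h4
  have h5 : ‖(1 : ℂ) / m‖ = 1 / m := by rw [norm_div, norm_one, Complex.norm_natCast]
  rw [h5]
  calc 1 / (m : ℝ) * _ ≤ 1 / m * (S.card * (M * (1 / k + 1 / (M - k))) + δ * S.card * (39 * m + 3 * m * (1 + Real.log m))) := by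
        apply mul_le_mul_of_nonneg_left (h4.trans _) (by positivity)
        exact add_le_add le_rfl (mul_le_mul_of_nonneg_left hvino (by positivity))
    _ = _ := by
        field_simp
        ring

end Pool.Agent.N193.DE
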