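import Pool.Agent.N193.DE.V2
import Pool.Agent.N193.DE.R

set_option autoImplicit false

/-!
The diagonal Moebius-twisted Elliott-Halberstam bound in the windows around almost all members of thin families.
-/

namespace Pool.Agent.N193.DE

open Finset Filter Topology
open Pool.Agent.H807R2.Dav (ee norm_ee ee_add)
open Pool.Agent.R311.DEH
open Pool.Agent.N193.PS (log_pow_ev const_ev SV val)

lemma Flat.mono {J : Type} {C C' η η' : ℝ} {M : ℕ} {s : Finset J} {v : J → ℕ} (h : Flat C η M s v) (h1 : C ≤ C')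
    (h2 : η ≤ η') : Flat C' η' M s v := by
  intro k hk hkM
  have h3 : (0 : ℝ) < k := by exact_mod_cast hk
  have h4 : (0 : ℝ) < (M : ℝ) - k := by
    have : (k : ℝ) < M := by exact_mod_cast hkM
    linarith
  refine (h k hk hkM).trans (mul_le_mul_of_nonneg_left ?_ (Nat.cast_nonneg _))
  exact add_le_add (mul_le_mul_of_nonneg_right h1 (by positivity)) h2

/-- `N` violates the bound for one of the two weights -/
def Bad (A : ℕ) (θ : ℝ) (N : ℕ) : Prop :=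
  ∃ g : ℕ → ℝ, (g = g1 ∨ g = g2) ∧ (N : ℝ) / Real.log N ^ A < D g N ((N : ℝ) ^ θ)

open Classical in
lemma window_card {J : Type} (s : Finset J) (H : ℕ) (w : ℤ → J → ℕ) (A : ℕ) (θ E : ℝ)
    (h : ∀ a ∈ Icc (-(H : ℤ)) H, ∀ g : ℕ → ℝ, (g = g1 ∨ g = g2) →
      ((s.filter fun j => (w a j : ℝ) / Real.log (w a j) ^ A < D g (w a j) ((w a j : ℝ) ^ θ)).card : ℝ) ≤ E) :
    ((s.filter fun j => ∃ a ∈ Icc (-(H : ℤ)) H, Bad A θ (w a j)).card : ℝ) ≤ (2 * H + 1) * (2 * E) := by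
  have hsub : (s.filter fun j => ∃ a ∈ Icc (-(H : ℤ)) H, Bad A θ (w a j)) ⊆
      (Icc (-(H : ℤ)) H).biUnion fun a =>
        (s.filter fun j => (w a j : ℝ) / Real.log (w a j) ^ A < D g1 (w a j) ((w a j : ℝ) ^ θ)) ∪
        (s.filter fun j => (w a j : ℝ) / Real.log (w a j) ^ A < D g2 (w a j) ((w a j : ℝ) ^ θ)) := by
    intro j hj
    rw [mem_filter] at hj
    obtain ⟨hjs, a, ha, g, hg, hlt⟩ := hj
    rw [mem_biUnion]
    refine ⟨a, ha, ?_⟩
    rw [mem_union, mem_filter, mem_filter]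
    rcases hg with rfl | rfl
    · exact Or.inl ⟨hjs, hlt⟩
    · exact Or.inr ⟨hjs, hlt⟩
  have h1 : ((s.filter fun j => ∃ a ∈ Icc (-(H : ℤ)) H, Bad A θ (w a j)).card : ℝ) ≤
      ∑ a ∈ Icc (-(H : ℤ)) H, (E + E) := by
    calc ((s.filter fun j => ∃ a ∈ Icc (-(H : ℤ)) H, Bad A θ (w a j)).card : ℝ) ≤
        ((∑ a ∈ Icc (-(H : ℤ)) H,
        ((s.filter fun j => (w a j : ℝ) / Real.log (w a j) ^ A < D g1 (w a j) ((w a j : ℝ) ^ θ)) ∪
        (s.filter fun j => (w a j : ℝ) / Real.log (w a j) ^ A < D g2 (w a j) ((w a j : ℝ) ^ θ))).card : ℕ) : ℝ) := by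
          exact_mod_cast (card_le_card hsub).trans card_biUnion_le
      _ ≤ _ := by
          rw [Nat.cast_sum]
          refine sum_le_sum fun a ha => ?_
          refine le_trans ?_ (add_le_add (h a ha g1 (Or.inl rfl)) (h a ha g2 (Or.inr rfl)))
          exact_mod_cast card_union_le _ _
  refine h1.trans (le_of_eq ?_)
  rw [sum_const, nsmul_eq_mul, Int.card_Icc]
  have e : (((H : ℤ) + 1 - -(H : ℤ)).toNat : ℝ) = 2 * H + 1 := by
    have : (((H : ℤ) + 1 - -(H : ℤ)).toNat : ℤ) = 2 * H + 1 := by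
      rw [Int.toNat_of_nonneg (by omega)]; ring
    exact_mod_cast this
  rw [e]
  ring

open Classical in
theorem res_main (κ θ : ℝ) (hθ : 0 < θ) (hθκ : θ < κ) (hκ : κ ≤ 1) (A W B K₀ : ℕ) : ∃ m₀ : ℕ, ∀ m : ℕ, m₀ ≤ m →
    ∀ S : Finset ℕ, S ⊆ range m →
    (∀ a : ℕ, 1 ≤ a → a < m → ‖∑ r ∈ S, ee ((a : ℝ) * r / m)‖ ≤ (m : ℝ) ^ (-κ) * S.card) →
    ∀ c : ℕ, m ≤ c → c ≤ K₀ * m →
    (((mem m S c).filter fun N : ℕ => ∃ N' : ℕ, |(N' : ℝ) - (N : ℕ)| ≤ Real.log m ^ W ∧ Bad A θ N').card : ℝ) ≤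
      S.card / Real.log m ^ B := by
  obtain ⟨K, hK⟩ : ∃ K : ℕ, K = K₀ + 2 := ⟨_, rfl⟩
  obtain ⟨κ', hκ'⟩ : ∃ κ', κ' = (θ + κ) / 2 := ⟨_, rfl⟩
  have hC : (1 : ℝ) ≤ 2 * K + 1 := by
    have : (0 : ℝ) ≤ K := Nat.cast_nonneg _
    linarith
  obtain ⟨X₀, hX₀⟩ := transfer κ' θ hθ (by rw [hκ']; linarith) (by rw [hκ']; linarith) (2 * K + 1) hC A (B + W + 1)
  have hK0 : (0 : ℝ) < K := by rw [hK]; push_cast; positivity
  have hev := (tendsto_natCast_atTop_atTop (R := ℝ)).eventually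
    ((log_pow_ev 1 (42 * (K : ℝ) ^ κ') (κ - κ') (by positivity) (by rw [hκ']; linarith)).and
    ((log_pow_ev W 2 1 (by norm_num) (by norm_num)).and
    ((Real.tendsto_log_atTop.eventually_ge_atTop 6).and (eventually_ge_atTop (1 : ℝ)))))
  obtain ⟨m₁, hm₁⟩ := eventually_atTop.1 hev
  refine ⟨m₁ + X₀, fun m hm S hS hF c hc1 hc2 => ?_⟩
  obtain ⟨e1, e2, e3, e4⟩ := hm₁ m (by omega)
  rw [Real.rpow_one] at e2
  rw [pow_one] at e1
  have hm1 : 1 ≤ m := by exact_mod_cast e4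
  have hm0 : (0 : ℝ) < m := by linarith
  have hpow : Real.log m ^ W ≤ (1 + Real.log m) ^ W := pow_le_pow_left₀ (by linarith) (by linarith) _
  have hone : 1 ≤ Real.log m ^ W := one_le_pow₀ (by linarith)
  obtain ⟨H, hH⟩ : ∃ H, H = ⌊Real.log m ^ W⌋₊ := ⟨_, rfl⟩
  have hHle : (H : ℝ) ≤ Real.log m ^ W := by rw [hH]; exact Nat.floor_le (by linarith)
  have hHm : 2 * H ≤ m := by
    have : (2 : ℝ) * H ≤ m := by linarith
    exact_mod_cast this
  have hXm : ((K * m : ℕ) : ℝ) = K * m := by push_cast; ring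
  have hXX : X₀ ≤ K * m := by
    have : 1 * m ≤ K * m := Nat.mul_le_mul_right _ (by omega)
    omega
  have hlogX : Real.log m ≤ Real.log (K * m : ℕ) := by
    apply Real.log_le_log hm0
    rw [hXm]
    have : (1 : ℝ) ≤ K := by rw [hK]; push_cast; linarith [(Nat.cast_nonneg K₀ : (0 : ℝ) ≤ K₀)]
    nlinarith
  -- the family
  have hη : (m : ℝ) ^ (-κ) * (42 + 3 * Real.log m) ≤ ((K * m : ℕ) : ℝ) ^ (-κ') := by
    rw [hXm, Real.mul_rpow hK0.le hm0.le]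
    have h1 : 42 + 3 * Real.log m ≤ 42 * (1 + Real.log m) := by linarith
    have h2 : (K : ℝ) ^ κ' * (K : ℝ) ^ (-κ') = 1 := by
      rw [← Real.rpow_add hK0, add_neg_cancel, Real.rpow_zero]
    have h3 : (m : ℝ) ^ (κ - κ') * (m : ℝ) ^ (-κ) = (m : ℝ) ^ (-κ') := by
      rw [← Real.rpow_add hm0]
      congr 1
      ring
    calc (m : ℝ) ^ (-κ) * (42 + 3 * Real.log m) ≤ (m : ℝ) ^ (-κ) * (42 * (1 + Real.log m)) :=
          mul_le_mul_of_nonneg_left h1 (by positivity)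
      _ = ((K : ℝ) ^ κ' * (K : ℝ) ^ (-κ')) * ((m : ℝ) ^ (-κ) * (42 * (1 + Real.log m))) := by rw [h2, one_mul]
      _ = (42 * (K : ℝ) ^ κ' * (1 + Real.log m)) * ((m : ℝ) ^ (-κ) * (K : ℝ) ^ (-κ')) := by ring
      _ ≤ (m : ℝ) ^ (κ - κ') * ((m : ℝ) ^ (-κ) * (K : ℝ) ^ (-κ')) := mul_le_mul_of_nonneg_right e1 (by positivity)
      _ = (K : ℝ) ^ (-κ') * ((m : ℝ) ^ (κ - κ') * (m : ℝ) ^ (-κ)) := by ring
      _ = _ := by rw [h3]
  have hflat := (flat_res m hm1 S hS ((m : ℝ) ^ (-κ)) (by positivity) hF c (2 * (K * m) + 1)).mono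
    (C' := 2 * K + 1) (η' := ((K * m : ℕ) : ℝ) ^ (-κ')) (by
      rw [div_le_iff₀ hm0]
      push_cast
      linarith) hη
  -- the translates
  let w : ℤ → ℕ → ℕ := fun a N => ((N : ℤ) + a).toNat
  have hw : ∀ a ∈ Icc (-(H : ℤ)) H, ∀ N ∈ mem m S c, ((w a N : ℕ) : ℤ) = N + a ∧ w a N ≤ K * m ∧ m ≤ 2 * w a N := by
    intro a ha N hN
    rw [mem_Icc] at ha
    unfold mem at hN
    rw [mem_filter, mem_Ico] at hN
    obtain ⟨⟨hN1, hN2⟩, _⟩ := hN
    have h1 : ((w a N : ℕ) : ℤ) = N + a := Int.toNat_of_nonneg (by omega)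
    refine ⟨h1, ?_, by omega⟩
    have h2 : K * m = K₀ * m + 2 * m := by rw [hK]; ring
    omega
  have hmain := window_card (mem m S c) H w A θ (S.card / Real.log (K * m : ℕ) ^ (B + W + 1)) (by
    intro a ha g hg
    have h1 := hX₀ (K * m) hXX ℕ (mem m S c) (w a) (hflat.shift a fun j hj => (hw a ha j hj).1) (fun j hj => by
      obtain ⟨_, h2, h3⟩ := hw a ha j hj
      refine ⟨h2, ?_⟩
      have h4 : (m : ℝ) ≤ 2 * w a j := by exact_mod_cast h3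
      have h5 : (0 : ℝ) ≤ w a j := Nat.cast_nonneg _
      rw [hXm]
      nlinarith) g hg
    rwa [mem_card m S hS] at h1)
  have hsub : ((mem m S c).filter fun N : ℕ => ∃ N' : ℕ, |(N' : ℝ) - (N : ℕ)| ≤ Real.log m ^ W ∧ Bad A θ N') ⊆
      (mem m S c).filter fun N : ℕ => ∃ a ∈ Icc (-(H : ℤ)) H, Bad A θ (w a N) := by
    intro N hN
    rw [mem_filter] at hN ⊢
    obtain ⟨hN1, N', hN', hb⟩ := hN
    refine ⟨hN1, (N' : ℤ) - N, ?_, ?_⟩
    · rw [mem_Icc]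
      have h1 : (((N' : ℤ) - N).natAbs : ℝ) ≤ Real.log m ^ W := by
        rw [Nat.cast_natAbs]
        push_cast
        exact hN'
      have h2 : ((N' : ℤ) - N).natAbs ≤ H := by rw [hH]; exact Nat.le_floor h1
      omega
    · have h3 : w ((N' : ℤ) - N) N = N' := by
        show ((N : ℤ) + ((N' : ℤ) - N)).toNat = N'
        rw [add_sub_cancel, Int.toNat_natCast]
      rwa [h3]
  have hfin : ((2 * H + 1) * (2 * (S.card / Real.log (K * m : ℕ) ^ (B + W + 1))) : ℝ) ≤ S.card / Real.log m ^ B := by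
    have hS0 : (0 : ℝ) ≤ S.card := Nat.cast_nonneg _
    obtain ⟨ℓ, hℓ⟩ : ∃ ℓ, ℓ = Real.log m := ⟨_, rfl⟩
    rw [← hℓ] at hHle hone e3 hlogX ⊢
    have hℓ0 : 0 < ℓ := by linarith
    have h1 : (S.card : ℝ) / Real.log (K * m : ℕ) ^ (B + W + 1) ≤ S.card / ℓ ^ (B + W + 1) :=
      div_le_div_of_nonneg_left hS0 (by positivity) (pow_le_pow_left₀ hℓ0.le hlogX _)
    have h2 : (2 * (H : ℝ) + 1) ≤ 3 * ℓ ^ W := by linarith
    calc ((2 * H + 1) * (2 * (S.card / Real.log (K * m : ℕ) ^ (B + W + 1))) : ℝ) ≤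
          (3 * ℓ ^ W) * (2 * (S.card / ℓ ^ (B + W + 1))) :=
          mul_le_mul h2 (mul_le_mul_of_nonneg_left h1 (by norm_num)) (by positivity) (by positivity)
      _ = S.card / ℓ ^ B * (6 / ℓ) := by
          rw [pow_add, pow_add, pow_one]
          field_simp
          ring
      _ ≤ S.card / ℓ ^ B * 1 := by
          apply mul_le_mul_of_nonneg_left _ (by positivity)
          rw [div_le_one hℓ0]
          exact e3
      _ = _ := mul_one _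
  refine le_trans ?_ (hmain.trans hfin)
  exact_mod_cast card_le_card hsub

open Classical in
theorem sv_main {c : ℝ} {φ : ℕ → ℝ → ℝ} (h : SV c φ) : ∃ κ : ℝ, 0 < κ ∧ κ ≤ 1 ∧ ∀ θ : ℝ, 0 < θ → θ < κ →
    ∀ A W B K₀ : ℕ, ∃ x₀ : ℕ, ∀ x : ℕ, x₀ ≤ x → ∀ c₀ : ℤ, -(φ 0 x) / 4 ≤ c₀ → (c₀ : ℝ) ≤ K₀ * φ 0 x →
    (((Ioc x (2 * x)).filter fun n => ∃ N : ℕ, |(N : ℝ) - (c₀ + val φ n)| ≤ Real.log x ^ W ∧ Bad A θ N).card : ℝ) ≤
      x / Real.log x ^ B := by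
  have hc := h.pos
  obtain ⟨κ, hκ0, hκ1, hfl⟩ := h.flat
  refine ⟨κ, hκ0, hκ1, fun θ hθ hθκ A W B K₀ => ?_⟩
  obtain ⟨C, hC, x₁, hx₁⟩ := hfl (K₀ + 1) (by positivity)
  obtain ⟨X₀, hX₀⟩ := transfer κ θ hθ hθκ hκ1 C hC A (B + W + 1)
  obtain ⟨t₂, ht₂, hlow⟩ := h.low (c / 4) (by linarith)
  have hlow' : ∀ᶠ x : ℝ in atTop, x ^ (c / 2) ≤ φ 0 x := by
    have h0 := (hlow t₂ t₂ le_rfl le_rfl).1
    filter_upwards [const_ev (t₂ ^ (c - c / 4) / φ 0 t₂) (c / 4) (by linarith), eventually_ge_atTop t₂,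
      eventually_gt_atTop 0] with x h1 h2 h3
    have h4 := (hlow t₂ x le_rfl h2).2
    refine le_trans ?_ h4
    rw [Real.div_rpow h3.le (by linarith)]
    rw [div_le_iff₀ h0] at h1
    have ht0 : 0 < t₂ ^ (c - c / 4) := Real.rpow_pos_of_pos (by linarith) _
    rw [mul_div_assoc', le_div_iff₀ ht0]
    calc x ^ (c / 2) * t₂ ^ (c - c / 4) ≤ x ^ (c / 2) * (x ^ (c / 4) * φ 0 t₂) :=
          mul_le_mul_of_nonneg_left h1 (by positivity)
      _ = φ 0 t₂ * x ^ (c - c / 4) := by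
          have : x ^ (c - c / 4) = x ^ (c / 2) * x ^ (c / 4) := by
            rw [← Real.rpow_add h3]; congr 1; ring
          rw [this]; ring
  obtain ⟨q, hq⟩ : ∃ q : ℝ, q = (2 / c) ^ (B + W + 1) := ⟨_, rfl⟩
  have hev := (tendsto_natCast_atTop_atTop (R := ℝ)).eventually
    (hlow'.and ((log_pow_ev W 4 (c / 2) (by norm_num) (by linarith)).and
    ((const_ev X₀ (c / 2) (by linarith)).and
    ((Real.tendsto_log_atTop.eventually_ge_atTop (6 * q + 1)).and (eventually_ge_atTop (1 : ℝ))))))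
  obtain ⟨m₁, hm₁⟩ := eventually_atTop.1 hev
  refine ⟨m₁ + x₁, fun x hx c₀ hc1 hc2 => ?_⟩
  obtain ⟨e1, e2, e3, e4, e5⟩ := hm₁ x (by omega)
  have hx1 : 1 ≤ x := by exact_mod_cast e5
  have hx0 : (0 : ℝ) < x := by linarith
  have hq0 : 0 < q := by rw [hq]; positivity
  have hpow : Real.log x ^ W ≤ (1 + Real.log x) ^ W := pow_le_pow_left₀ (by linarith) (by linarith) _
  have hone : 1 ≤ Real.log x ^ W := one_le_pow₀ (by linarith)
  obtain ⟨H, hH⟩ : ∃ H, H = ⌊Real.log x ^ W⌋₊ := ⟨_, rfl⟩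
  have hHle : (H : ℝ) ≤ Real.log x ^ W := by rw [hH]; exact Nat.floor_le (by linarith)
  have hHφ : 4 * (H : ℝ) ≤ φ 0 x := by linarith
  let w : ℤ → ℕ → ℕ := fun a n => ((c₀ + a : ℤ) + (val φ n : ℕ)).toNat
  have hcard : ((Ioc x (2 * x)).card : ℝ) = x := by
    rw [Nat.card_Ioc]
    congr 1
    omega
  obtain ⟨ℓ, hℓ⟩ : ∃ ℓ, ℓ = Real.log x := ⟨_, rfl⟩
  have hℓ0 : 0 < ℓ := by rw [hℓ]; linarith
  have hmain := window_card (Ioc x (2 * x)) H w A θ (x * q / ℓ ^ (B + W + 1)) (by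
    intro a ha g hg
    rw [mem_Icc] at ha
    have ha1 : -(H : ℝ) ≤ a := by exact_mod_cast ha.1
    have ha2 : (a : ℝ) ≤ H := by exact_mod_cast ha.2
    obtain ⟨X, hX1, hX2, hX3, hX4, hX5⟩ := hx₁ x (by omega) (c₀ + a) (by push_cast; linarith) (by push_cast; linarith)
    have h6 : X₀ ≤ X := by exact_mod_cast e3.trans hX2
    have h1 := hX₀ X h6 ℕ (Ioc x (2 * x)) (w a) hX4 (fun j hj => by
      obtain ⟨h2, h3⟩ := hX5 j hj
      refine ⟨?_, h3⟩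
      show ((c₀ + a : ℤ) + (val φ j : ℕ)).toNat ≤ X
      omega) g hg
    refine h1.trans ?_
    rw [hcard]
    have hlog : c / 2 * ℓ ≤ Real.log X := by
      rw [hℓ, ← Real.log_rpow hx0]
      exact Real.log_le_log (by positivity) hX2
    have h7 : (c / 2 * ℓ) ^ (B + W + 1) ≤ Real.log X ^ (B + W + 1) := pow_le_pow_left₀ (by positivity) hlog _
    calc (x : ℝ) / Real.log X ^ (B + W + 1) ≤ x / (c / 2 * ℓ) ^ (B + W + 1) :=
          div_le_div_of_nonneg_left hx0.le (by positivity) h7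
      _ = _ := by
          rw [hq, mul_pow, div_pow, div_pow]
          field_simp)
  have hsub : ((Ioc x (2 * x)).filter fun n => ∃ N : ℕ, |(N : ℝ) - (c₀ + val φ n)| ≤ Real.log x ^ W ∧ Bad A θ N) ⊆
      (Ioc x (2 * x)).filter fun n => ∃ a ∈ Icc (-(H : ℤ)) H, Bad A θ (w a n) := by
    intro n hn
    rw [mem_filter] at hn ⊢
    obtain ⟨hn1, N, hN, hb⟩ := hn
    refine ⟨hn1, (N : ℤ) - (c₀ + (val φ n : ℕ)), ?_, ?_⟩
    · rw [mem_Icc]
      have h1 : (((N : ℤ) - (c₀ + (val φ n : ℕ))).natAbs : ℝ) ≤ Real.log x ^ W := by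
        rw [Nat.cast_natAbs]
        push_cast
        exact hN
      have h2 : ((N : ℤ) - (c₀ + (val φ n : ℕ))).natAbs ≤ H := by rw [hH]; exact Nat.le_floor h1
      omega
    · have h3 : w ((N : ℤ) - (c₀ + (val φ n : ℕ))) n = N := by
        show ((c₀ + ((N : ℤ) - (c₀ + (val φ n : ℕ))) : ℤ) + (val φ n : ℕ)).toNat = N
        omega
      rwa [h3]
  have hfin : ((2 * H + 1) * (2 * (x * q / ℓ ^ (B + W + 1))) : ℝ) ≤ x / ℓ ^ B := by
    rw [← hℓ] at hHle hone e4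
    have h2 : (2 * (H : ℝ) + 1) ≤ 3 * ℓ ^ W := by linarith
    calc ((2 * H + 1) * (2 * (x * q / ℓ ^ (B + W + 1))) : ℝ) ≤
          (3 * ℓ ^ W) * (2 * (x * q / ℓ ^ (B + W + 1))) :=
          mul_le_mul_of_nonneg_right h2 (by positivity)
      _ = x / ℓ ^ B * (6 * q / ℓ) := by
          rw [pow_add, pow_add, pow_one]
          field_simp
          norm_num
      _ ≤ x / ℓ ^ B * 1 := by
          apply mul_le_mul_of_nonneg_left _ (by positivity)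
          rw [div_le_one hℓ0]
          linarith
      _ = _ := mul_one _
  rw [← hℓ] at hsub ⊢
  refine le_trans ?_ (hmain.trans hfin)
  exact_mod_cast card_le_card hsub

end Pool.Agent.N193.DE
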