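import Pool.Agent.N193.DE.W

set_option autoImplicit false

/-!
The diagonal Moebius-twisted Elliott-Halberstam bound for almost all members of a flat family.
-/

namespace Pool.Agent.N193.DE

open Finset Filter Topology
open Pool.Agent.H807R2.Dav (ee norm_ee ee_add)
open Pool.Agent.R311.DEH

variable {J : Type}

lemma abs_g_le (g : ℕ → ℝ) (hg : g = g1 ∨ g = g2) (X n : ℕ) (hn : n ∈ Icc 1 X) : |g n| ≤ 1 + Real.log X := by
  rw [mem_Icc] at hn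
  have hn0 : (0 : ℝ) < n := by exact_mod_cast hn.1
  have h1 : Real.log n ≤ Real.log X := Real.log_le_log hn0 (by exact_mod_cast hn.2)
  have h0 : 0 ≤ Real.log n := Real.log_nonneg (by exact_mod_cast hn.1)
  have hmu : |((ArithmeticFunction.moebius n : ℤ) : ℝ)| ≤ 1 := by
    have := ArithmeticFunction.abs_moebius_le_one (n := n)
    exact_mod_cast this
  rcases hg with rfl | rfl
  · unfold g1
    linarith
  · unfold g2
    rw [abs_mul, abs_of_nonneg h0]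
    nlinarith [abs_nonneg ((ArithmeticFunction.moebius n : ℤ) : ℝ)]

lemma ga_sq (g : ℕ → ℝ) (hg : g = g1 ∨ g = g2) (X q : ℕ) (hq : 1 ≤ q) :
    ∑ n ∈ Icc 1 X, ‖(if q ∣ n then (g n : ℂ) else 0)‖ ^ 2 ≤ X / q * (1 + Real.log X) ^ 2 := by
  classical
  have h1 : ∀ n ∈ Icc 1 X, ‖(if q ∣ n then (g n : ℂ) else 0)‖ ^ 2 ≤ if q ∣ n then (1 + Real.log X) ^ 2 else 0 := by
    intro n hn
    split_ifs
    · rw [Complex.norm_real, Real.norm_eq_abs]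
      exact pow_le_pow_left₀ (abs_nonneg _) (abs_g_le g hg X n hn) 2
    · simp
  refine (sum_le_sum h1).trans ?_
  rw [← sum_filter, sum_const, nsmul_eq_mul]
  apply mul_le_mul_of_nonneg_right _ (by positivity)
  have h2 : (Icc 1 X).filter (fun n => q ∣ n) = (Ioc 0 X).filter (fun n => q ∣ n) := by
    ext n; simp [Nat.one_le_iff_ne_zero, Nat.pos_iff_ne_zero]
  rw [h2, Nat.Ioc_filter_dvd_card_eq_div]
  exact Nat.cast_div_le

/-- the mean over a flat family for one modulus -/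
theorem mean_Tf (U : ℕ) : ∃ Y0 : ℕ, 4 ≤ Y0 ∧ ∀ X q K : ℕ, 1 ≤ q → Y0 ≤ K → K ≤ X / q → ∀ g : ℕ → ℝ,
    (g = g1 ∨ g = g2) → ∀ C η : ℝ, 0 ≤ C → 0 ≤ η → ∀ (s : Finset J) (v : J → ℕ), Flat C η (2 * X + 1) s v →
    (∀ j ∈ s, 1 ≤ v j ∧ v j ≤ X) → ∑ j ∈ s, |Tq g q (v j)| ≤
      s.card * ((1 + 16 * C) * (1 + Real.log X) ^ 2 * dl U X q K + √η * X * (1 + Real.log X) ^ 2 / √q) := by
  obtain ⟨Y0, hY0, h⟩ := g_bound U
  refine ⟨Y0, hY0, fun X q K hq hK hKX g hg C η hC hη s v hfl hv => ?_⟩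
  have hK4 : 4 ≤ K := hY0.trans hK
  have hX4 : 4 ≤ X := (hK4.trans hKX).trans (Nat.div_le_self _ _)
  have hXr : (4 : ℝ) ≤ X := by exact_mod_cast hX4
  have hX0 : (0 : ℝ) < X := by linarith
  have hlX : 0 < Real.log X := Real.log_pos (by linarith)
  have hq0 : (0 : ℝ) < q := by exact_mod_cast hq
  have hdl := dl_nonneg U X q K (by omega) (by omega)
  have h1 := cv_flat hC hη X hfl hv (fun m => if q ∣ m then (g m : ℂ) else 0)
    (fun n => ((ArithmeticFunction.vonMangoldt n : ℝ) : ℂ)) (dl U X q K)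
    (fun α => h X q K hq hK hKX g hg α)
  have h2 : ∑ j ∈ s, |Tq g q (v j)| ^ 2 = ∑ j ∈ s, ‖∑ n ∈ Ico 1 (v j),
      ((ArithmeticFunction.vonMangoldt n : ℝ) : ℂ) * (if q ∣ v j - n then (g (v j - n) : ℂ) else 0)‖ ^ 2 := by
    apply sum_congr rfl
    intro j _
    have h3 := Tq_eq g q (v j)
    rw [← Real.norm_eq_abs, ← Complex.norm_real, h3]
  obtain ⟨ℓ, hℓ⟩ : ∃ ℓ, ℓ = 1 + Real.log X := ⟨_, rfl⟩
  have hℓ1 : 1 ≤ ℓ := by linarith
  rw [← hℓ]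
  have hSb := lam_sq X
  rw [← hℓ] at hSb
  have hSa := ga_sq g hg X q hq
  rw [← hℓ] at hSa
  have hlM : 1 + Real.log ((2 * X + 1 : ℕ) : ℝ) ≤ 4 * ℓ := by
    have e1 : Real.log ((2 * X + 1 : ℕ) : ℝ) ≤ Real.log (3 * X) := by
      apply Real.log_le_log (by positivity)
      push_cast
      linarith
    rw [Real.log_mul (by norm_num) hX0.ne'] at e1
    have e2 : Real.log 3 ≤ 2 := by
      have := Real.log_le_sub_one_of_pos (show (0 : ℝ) < 3 by norm_num)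
      linarith
    linarith
  obtain ⟨P, hP⟩ : ∃ P, P = 1 + 16 * C := ⟨_, rfl⟩
  have hP1 : 1 ≤ P := by rw [hP]; linarith
  have hfac : 1 + 4 * C * (1 + Real.log ((2 * X + 1 : ℕ) : ℝ)) ≤ P * ℓ := by
    rw [hP]
    have := mul_le_mul_of_nonneg_left hlM (show 0 ≤ 4 * C by linarith)
    nlinarith
  have hM : (X : ℝ) ≤ ((2 * X + 1 : ℕ) : ℝ) := by push_cast; linarith
  have hsq : ∑ j ∈ s, |Tq g q (v j)| ^ 2 ≤ s.card * ((P * ℓ ^ 2 * dl U X q K) ^ 2 + (√η * X * ℓ ^ 2 / √q) ^ 2) := by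
    rw [h2]
    refine h1.trans (mul_le_mul_of_nonneg_left ?_ (Nat.cast_nonneg _))
    apply add_le_add
    · have e3 : (dl U X q K) ^ 2 * (∑ n ∈ Icc 1 X, ‖((ArithmeticFunction.vonMangoldt n : ℝ) : ℂ)‖ ^ 2) / ((2 * X + 1 : ℕ) : ℝ) ≤
          (dl U X q K) ^ 2 * ℓ ^ 2 := by
        rw [div_le_iff₀ (by positivity)]
        calc (dl U X q K) ^ 2 * (∑ n ∈ Icc 1 X, ‖((ArithmeticFunction.vonMangoldt n : ℝ) : ℂ)‖ ^ 2) ≤
            (dl U X q K) ^ 2 * (X * ℓ ^ 2) := mul_le_mul_of_nonneg_left hSb (by positivity)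
          _ = (dl U X q K) ^ 2 * ℓ ^ 2 * X := by ring
          _ ≤ _ := mul_le_mul_of_nonneg_left hM (by positivity)
      calc _ ≤ (P * ℓ) * ((dl U X q K) ^ 2 * ℓ ^ 2) := mul_le_mul hfac e3 (by positivity) (by positivity)
        _ = (P * ℓ ^ 3) * (dl U X q K) ^ 2 := by ring
        _ ≤ (P ^ 2 * ℓ ^ 4) * (dl U X q K) ^ 2 := by
            apply mul_le_mul_of_nonneg_right _ (by positivity)
            apply mul_le_mul _ (pow_le_pow_right₀ hℓ1 (by norm_num)) (by positivity) (by positivity)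
            nlinarith
        _ = _ := by ring
    · rw [div_pow, mul_pow, mul_pow, Real.sq_sqrt hη, Real.sq_sqrt hq0.le]
      calc η * ((∑ n ∈ Icc 1 X, ‖(if q ∣ n then (g n : ℂ) else 0)‖ ^ 2) *
          ∑ n ∈ Icc 1 X, ‖((ArithmeticFunction.vonMangoldt n : ℝ) : ℂ)‖ ^ 2) ≤
          η * ((X / q * ℓ ^ 2) * (X * ℓ ^ 2)) := by
            apply mul_le_mul_of_nonneg_left _ hη
            exact mul_le_mul hSa hSb (sum_nonneg fun _ _ => by positivity) (by positivity)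
        _ = _ := by ring
  have hA0 : 0 ≤ P * ℓ ^ 2 * dl U X q K := by positivity
  have hB0 : 0 ≤ √η * X * ℓ ^ 2 / √q := by positivity
  rw [← hP]
  have hcs : (∑ j ∈ s, |Tq g q (v j)|) ^ 2 ≤ (s.card * (P * ℓ ^ 2 * dl U X q K + √η * X * ℓ ^ 2 / √q)) ^ 2 := by
    refine (sq_sum_le_card_mul_sum_sq (s := s) (f := fun j => |Tq g q (v j)|)).trans ?_
    calc (s.card : ℝ) * ∑ j ∈ s, |Tq g q (v j)| ^ 2 ≤
        s.card * (s.card * ((P * ℓ ^ 2 * dl U X q K) ^ 2 + (√η * X * ℓ ^ 2 / √q) ^ 2)) :=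
          mul_le_mul_of_nonneg_left hsq (Nat.cast_nonneg _)
      _ ≤ _ := by
          rw [mul_pow]
          have e4 : (P * ℓ ^ 2 * dl U X q K) ^ 2 + (√η * X * ℓ ^ 2 / √q) ^ 2 ≤
              (P * ℓ ^ 2 * dl U X q K + √η * X * ℓ ^ 2 / √q) ^ 2 := by
            have := mul_nonneg hA0 hB0
            nlinarith
          have := mul_le_mul_of_nonneg_left e4 (show (0 : ℝ) ≤ (s.card : ℝ) ^ 2 by positivity)
          nlinarith
  exact le_of_sq_le_sq hcs (by positivity)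

/-- the discrepancy without the condition of coprimality -/
noncomputable def DF (g : ℕ → ℝ) (Q N : ℕ) : ℝ :=
  ∑ q ∈ Icc 1 Q, (|Tq g q N| + 1 / (Nat.totient q : ℝ) * |Tq g 1 N|)

lemma D_le_DF (g : ℕ → ℝ) (N Q : ℕ) (Q' : ℝ) (h : ⌊Q'⌋₊ ≤ Q) : D g N Q' ≤ DF g Q N := by
  unfold D DF
  refine (sum_le_sum_of_subset_of_nonneg (t := Icc 1 Q) ?_ fun _ _ _ => abs_nonneg _).trans (sum_le_sum fun q _ => ?_)
  · intro q hq
    rw [mem_filter, mem_Icc] at hq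
    rw [mem_Icc]
    omega
  · refine (abs_sub _ _).trans ?_
    rw [abs_mul, abs_of_nonneg (show 0 ≤ 1 / (Nat.totient q : ℝ) by positivity)]

lemma sum_inv_sqrt (Q : ℕ) : ∑ q ∈ Icc 1 Q, 1 / √(q : ℝ) ≤ √Q * (1 + Real.log Q) := by
  rcases Nat.eq_zero_or_pos Q with rfl | hQ
  · simp
  have hl : 0 ≤ Real.log Q := Real.log_nonneg (by exact_mod_cast hQ)
  have h1 : (∑ q ∈ Icc 1 Q, 1 / √(q : ℝ)) ^ 2 ≤ (√Q * (1 + Real.log Q)) ^ 2 := by
    refine (sq_sum_le_card_mul_sum_sq (s := Icc 1 Q) (f := fun q : ℕ => 1 / √(q : ℝ))).trans ?_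
    have h2 : ∑ q ∈ Icc 1 Q, (1 / √(q : ℝ)) ^ 2 = ∑ q ∈ Icc 1 Q, 1 / (q : ℝ) := by
      refine sum_congr rfl fun q _ => ?_
      rw [div_pow, one_pow, Real.sq_sqrt (Nat.cast_nonneg _)]
    rw [h2, Nat.card_Icc, Nat.add_sub_cancel, mul_pow, Real.sq_sqrt (Nat.cast_nonneg _)]
    apply mul_le_mul_of_nonneg_left _ (Nat.cast_nonneg _)
    have := harm_le Q
    nlinarith
  exact le_of_sq_le_sq h1 (by positivity)

theorem sum_DF (U : ℕ) : ∃ Y0 : ℕ, 4 ≤ Y0 ∧ ∀ X K T Q : ℕ, Y0 ≤ K → 1 ≤ Q → (∀ q ∈ Icc 1 Q, K ≤ X / q) →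
    1 ≤ T → T ^ 3 ≤ ct K → ∀ g : ℕ → ℝ, (g = g1 ∨ g = g2) → ∀ C η : ℝ, 0 ≤ C → 0 ≤ η →
    ∀ (s : Finset J) (v : J → ℕ), Flat C η (2 * X + 1) s v → (∀ j ∈ s, 1 ≤ v j ∧ v j ≤ X) →
    ∑ j ∈ s, DF g Q (v j) ≤
      s.card * X * (16 * (1 + 16 * C) * (1 + Real.log X) ^ 9 * (2 ^ U / Real.log K ^ U + 1 / T) +
        2 * √(η * Q) * (1 + Real.log X) ^ 7) := by
  obtain ⟨Y0, hY0, h⟩ := mean_Tf (J := J) U
  refine ⟨Y0, hY0, fun X K T Q hK hQ1 hQ hT hTK g hg C η hC hη s v hfl hv => ?_⟩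
  have hK4 : 4 ≤ K := hY0.trans hK
  have hKX : K ≤ X := by
    have := hQ 1 (mem_Icc.2 ⟨le_rfl, hQ1⟩)
    rwa [Nat.div_one] at this
  have hX4 : 4 ≤ X := hK4.trans hKX
  have hXr : (4 : ℝ) ≤ X := by exact_mod_cast hX4
  have hKr : (4 : ℝ) ≤ K := by exact_mod_cast hK4
  have hTr : (1 : ℝ) ≤ T := by exact_mod_cast hT
  have hlX : 0 < Real.log X := Real.log_pos (by linarith)
  have hlK : 0 < Real.log K := Real.log_pos (by linarith)
  have hQX : Q ≤ X := by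
    have := hQ Q (mem_Icc.2 ⟨hQ1, le_rfl⟩)
    by_contra hcon
    rw [Nat.div_eq_of_lt (by omega)] at this
    omega
  obtain ⟨ℓ, hℓ⟩ : ∃ ℓ, ℓ = 1 + Real.log X := ⟨_, rfl⟩
  have hℓ1 : 1 ≤ ℓ := by linarith
  obtain ⟨Z, hZ⟩ : ∃ Z, Z = 2 ^ U / Real.log K ^ U + 1 / (T : ℝ) := ⟨_, rfl⟩
  have hZ0 : 0 ≤ Z := by rw [hZ]; positivity
  obtain ⟨P, hP⟩ : ∃ P, P = 1 + 16 * C := ⟨_, rfl⟩
  have hP1 : 1 ≤ P := by rw [hP]; linarith
  obtain ⟨n, hn⟩ : ∃ n : ℝ, n = s.card := ⟨_, rfl⟩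
  have hn0 : 0 ≤ n := by rw [hn]; positivity
  obtain ⟨R, hR⟩ : ∃ R, R = √(η * Q) := ⟨_, rfl⟩
  have hR0 : 0 ≤ R := by rw [hR]; positivity
  have hRe : √η * √Q = R := by rw [hR, Real.sqrt_mul hη]
  have hRη : √η ≤ R := by
    rw [hR]
    apply Real.sqrt_le_sqrt
    have : (1 : ℝ) ≤ Q := by exact_mod_cast hQ1
    nlinarith
  rw [← hℓ, ← hZ, ← hP, ← hn, ← hR]
  have hdlsum : ∑ q ∈ Icc 1 Q, dl U X q K ≤ 8 * ℓ ^ 3 * X * Z := by
    have := sum_dl U X K T hX4 hK4 hT hTK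
    rw [← hℓ, ← hZ] at this
    refine le_trans ?_ this
    apply sum_le_sum_of_subset_of_nonneg
    · intro q hq
      have h1 := hQ q hq
      rw [mem_Icc] at hq
      rw [Qs, mem_filter, mem_Icc]
      exact ⟨⟨hq.1, hq.2.trans hQX⟩, h1⟩
    · intro q _ _
      exact dl_nonneg U X q K (by omega) (by omega)
  have hone : ∀ q ∈ Icc 1 Q, ∑ j ∈ s, |Tq g q (v j)| ≤ n * (P * ℓ ^ 2 * dl U X q K + √η * X * ℓ ^ 2 * (1 / √q)) := by
    intro q hq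
    have h1 := h X q K (mem_Icc.1 hq).1 hK (hQ q hq) g hg C η hC hη s v hfl hv
    rw [← hℓ, ← hP, ← hn] at h1
    refine h1.trans (le_of_eq ?_)
    ring
  have hlQ : 1 + Real.log Q ≤ ℓ := by
    rw [hℓ]
    have : Real.log Q ≤ Real.log X := Real.log_le_log (by exact_mod_cast hQ1) (by exact_mod_cast hQX)
    linarith
  have hs1 : ∑ q ∈ Icc 1 Q, ∑ j ∈ s, |Tq g q (v j)| ≤ n * X * (8 * P * ℓ ^ 5 * Z + R * ℓ ^ 3) := by
    refine (sum_le_sum hone).trans ?_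
    rw [← mul_sum, sum_add_distrib, ← mul_sum, ← mul_sum]
    have e1 := sum_inv_sqrt Q
    calc n * (P * ℓ ^ 2 * ∑ q ∈ Icc 1 Q, dl U X q K + √η * X * ℓ ^ 2 * ∑ q ∈ Icc 1 Q, 1 / √(q : ℝ)) ≤
        n * (P * ℓ ^ 2 * (8 * ℓ ^ 3 * X * Z) + √η * X * ℓ ^ 2 * (√Q * ℓ)) := by
          apply mul_le_mul_of_nonneg_left _ hn0
          apply add_le_add
          · exact mul_le_mul_of_nonneg_left hdlsum (by positivity)
          · apply mul_le_mul_of_nonneg_left _ (by positivity)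
            exact e1.trans (mul_le_mul_of_nonneg_left hlQ (by positivity))
      _ = n * X * (8 * P * ℓ ^ 5 * Z + (√η * √Q) * ℓ ^ 3) := by ring
      _ = _ := by rw [hRe]
  have h1sum : ∑ j ∈ s, |Tq g 1 (v j)| ≤ n * X * (8 * P * ℓ ^ 5 * Z + R * ℓ ^ 3) := by
    refine le_trans ?_ hs1
    exact single_le_sum (f := fun q => ∑ j ∈ s, |Tq g q (v j)|)
      (fun q _ => sum_nonneg fun _ _ => abs_nonneg _) (mem_Icc.2 ⟨le_rfl, hQ1⟩)
  have hphi : ∑ q ∈ Icc 1 Q, 1 / (Nat.totient q : ℝ) ≤ ℓ ^ 4 := by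
    obtain hk := Pool.Agent.H398R2.BV.sum_card_pow_div
    have e1 : ∑ q ∈ Icc 1 Q, 1 / (Nat.totient q : ℝ) ≤ ∑ q ∈ Icc 1 X, 1 / (Nat.totient q : ℝ) :=
      sum_le_sum_of_subset_of_nonneg (Icc_subset_Icc le_rfl hQX) (fun _ _ _ => by positivity)
    refine e1.trans ?_
    have e2 : ∀ q ∈ Icc 1 X, 1 / (Nat.totient q : ℝ) ≤ (q.divisors.card : ℝ) ^ 1 / q := by
      intro q hq
      rw [mem_Icc] at hq
      refine (Pool.Agent.H398R2.BV.one_div_totient_le q hq.1).trans ?_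
      have hq0 : (0 : ℝ) < q := by exact_mod_cast hq.1
      apply div_le_div_of_nonneg_right _ hq0.le
      rw [pow_one]
      exact_mod_cast Pool.Agent.H398R2.BV.two_pow_omega_le q (by omega)
    refine (sum_le_sum e2).trans ?_
    have e3 := hk 1 X
    refine e3.trans ?_
    rw [pow_one, hℓ]
    exact pow_le_pow_right₀ (by linarith) (by norm_num)
  have hDF : ∑ j ∈ s, DF g Q (v j) = ∑ q ∈ Icc 1 Q, ∑ j ∈ s, |Tq g q (v j)| +
      (∑ q ∈ Icc 1 Q, 1 / (Nat.totient q : ℝ)) * ∑ j ∈ s, |Tq g 1 (v j)| := by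
    unfold DF
    rw [sum_comm, sum_mul, ← sum_add_distrib]
    refine sum_congr rfl fun q _ => ?_
    rw [mul_sum, ← sum_add_distrib]
  rw [hDF]
  have h0 : 0 ≤ ∑ j ∈ s, |Tq g 1 (v j)| := sum_nonneg fun _ _ => abs_nonneg _
  have hV0 : 0 ≤ n * X * (8 * P * ℓ ^ 5 * Z + R * ℓ ^ 3) := by positivity
  calc _ ≤ n * X * (8 * P * ℓ ^ 5 * Z + R * ℓ ^ 3) + ℓ ^ 4 * (n * X * (8 * P * ℓ ^ 5 * Z + R * ℓ ^ 3)) :=
        add_le_add hs1 (mul_le_mul hphi h1sum h0 (by positivity))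
    _ ≤ ℓ ^ 4 * (n * X * (8 * P * ℓ ^ 5 * Z + R * ℓ ^ 3)) + ℓ ^ 4 * (n * X * (8 * P * ℓ ^ 5 * Z + R * ℓ ^ 3)) := by
        have e1 : 1 ≤ ℓ ^ 4 := one_le_pow₀ hℓ1
        have := mul_le_mul_of_nonneg_right e1 hV0
        linarith
    _ = _ := by ring

end Pool.Agent.N193.DE
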