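import Pool.Agent.N193.DE.T
import Pool.Agent.N193.PS.Floor

set_option autoImplicit false

/-!
The diagonal Moebius-twisted Elliott-Halberstam bound for almost all members of a flat family: the choice of the
parameters.
-/

namespace Pool.Agent.N193.DE

open Finset Filter Topology
open Pool.Agent.H807R2.Dav (ee norm_ee ee_add)
open Pool.Agent.R311.DEH
open Pool.Agent.N193.PS (log_pow_ev)

open Classical in
theorem transfer (κ θ : ℝ) (hθ : 0 < θ) (hθκ : θ < κ) (hκ : κ ≤ 1) (C : ℝ) (hC : 1 ≤ C) (A B : ℕ) :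
    ∃ X₀ : ℕ, ∀ X : ℕ, X₀ ≤ X → ∀ (J : Type) (s : Finset J) (v : J → ℕ), Flat C ((X : ℝ) ^ (-κ)) (2 * X + 1) s v →
    (∀ j ∈ s, v j ≤ X ∧ (X : ℝ) ≤ C * v j) → ∀ g : ℕ → ℝ, (g = g1 ∨ g = g2) →
    ((s.filter fun j => (v j : ℝ) / Real.log (v j) ^ A < D g (v j) ((v j : ℝ) ^ θ)).card : ℝ) ≤
      s.card / Real.log X ^ B := by
  have hc : (0 : ℝ) < 1 / 2 := by norm_num
  obtain ⟨U, X1, hU⟩ := U_ex (1 / 2) hc (A + B + 10)
  obtain ⟨Y0, hY0, hsum⟩ : ∃ Y0 : ℕ, 4 ≤ Y0 ∧ ∀ (J : Type) (X K T Q : ℕ), Y0 ≤ K → 1 ≤ Q → (∀ q ∈ Icc 1 Q, K ≤ X / q) →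
      1 ≤ T → T ^ 3 ≤ ct K → ∀ g : ℕ → ℝ, (g = g1 ∨ g = g2) → ∀ C η : ℝ, 0 ≤ C → 0 ≤ η →
      ∀ (s : Finset J) (v : J → ℕ), Flat C η (2 * X + 1) s v → (∀ j ∈ s, 1 ≤ v j ∧ v j ≤ X) →
      ∑ j ∈ s, DF g Q (v j) ≤
        s.card * X * (16 * (1 + 16 * C) * (1 + Real.log X) ^ 9 * (2 ^ U / Real.log K ^ U + 1 / T) +
          2 * √(η * Q) * (1 + Real.log X) ^ 7) := by
    obtain ⟨Y0, hY0, h⟩ := sum_DF (J := ℕ) U
    refine ⟨Y0, hY0, fun J X K T Q hK hQ hQK hT hTK g hg C η hC hη s v hfl hv => ?_⟩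
    -- transport to a set of natural numbers
    obtain ⟨e⟩ : Nonempty (s ≃ Fin s.card) := ⟨s.equivFin⟩
    let w : ℕ → ℕ := fun i => if hi : i < s.card then v (e.symm ⟨i, hi⟩).1 else 0
    have key : ∀ {α : Type} [AddCommMonoid α] (f : ℕ → α), ∑ i ∈ range s.card, f (w i) = ∑ j ∈ s, f (v j) := by
      intro α _ f
      rw [← Fin.sum_univ_eq_sum_range (fun i => f (w i)) s.card, ← Equiv.sum_comp e, ← sum_coe_sort s (fun j => f (v j))]
      refine sum_congr rfl fun j _ => ?_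
      simp [w]
    have hfl' : Flat C η (2 * X + 1) (range s.card) w := by
      intro k h1 h2
      have h3 := hfl k h1 h2
      rw [card_range, key (fun n : ℕ => ee ((k : ℝ) / ((2 * X + 1 : ℕ) : ℝ) * n))]
      exact h3
    have h4 := h X K T Q hK hQ hQK hT hTK g hg C η hC hη (range s.card) w hfl' (by
      intro i hi
      rw [mem_range] at hi
      simp only [w, hi, dif_pos]
      exact hv _ (e.symm ⟨i, hi⟩).2)
    rw [card_range, key (fun n => DF g Q n)] at h4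
    exact h4
  obtain ⟨X2, hK1⟩ := K_large (1 / 2) hc Y0
  obtain ⟨X3, hT⟩ := T_ex (1 / 2) hc (A + B + 10)
  obtain ⟨P, hP⟩ : ∃ P, P = 1 + 16 * C := ⟨_, rfl⟩
  have hP1 : 1 ≤ P := by rw [hP]; linarith
  have hev : ∀ᶠ X : ℕ in atTop, 64 * P * C ≤ 1 + Real.log X ∧ (1 / (1 - θ)) ^ 2 ≤ Real.log X ∧ 4 ≤ Real.log X ∧
      C * 2 ≤ (X : ℝ) ^ (1 : ℝ) ∧ (4 * C) * (1 + Real.log X) ^ (A + B + 7) ≤ (X : ℝ) ^ ((κ - θ) / 2) := by
    have e1 := Real.tendsto_log_atTop.eventually_ge_atTop (64 * P * C)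
    have e2 := Real.tendsto_log_atTop.eventually_ge_atTop ((1 / (1 - θ)) ^ 2)
    have e3 := Real.tendsto_log_atTop.eventually_ge_atTop (4 : ℝ)
    have e4 := Pool.Agent.N193.PS.const_ev (C * 2) 1 one_pos
    have e5 := log_pow_ev (A + B + 7) (4 * C) ((κ - θ) / 2) (by linarith) (by linarith)
    have := (tendsto_natCast_atTop_atTop (R := ℝ)).eventually (e1.and (e2.and (e3.and (e4.and e5))))
    filter_upwards [this] with X hX
    exact ⟨by linarith [hX.1], hX.2⟩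
  obtain ⟨X4, hX4⟩ := eventually_atTop.mp hev
  refine ⟨X1 + X2 + X3 + X4 + 1, fun X hX J s v hfl hv g hg => ?_⟩
  have a1 := hU X (by omega)
  have a2 := hK1 X (by omega)
  obtain ⟨T, hT1, hTct, hTge⟩ := hT X (by omega)
  obtain ⟨b1, b2, b3, b4, b5⟩ := hX4 X (by omega)
  rw [Real.rpow_one] at b4
  have hX1 : 1 ≤ X := by omega
  have hXp : (0 : ℝ) < X := by exact_mod_cast hX1
  have hX1r : (1 : ℝ) ≤ X := by exact_mod_cast hX1
  obtain ⟨L, hL⟩ : ∃ L, L = Real.log X := ⟨_, rfl⟩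
  obtain ⟨ℓ, hℓ⟩ : ∃ ℓ, ℓ = 1 + L := ⟨_, rfl⟩
  rw [← hL] at b2 b3
  rw [← hL, ← hℓ] at b1 b5 a1 hTge
  have hℓ1 : 1 ≤ ℓ := by linarith
  have hℓ0 : 0 < ℓ := by linarith
  have hθ1 : θ < 1 := by linarith
  obtain ⟨Q, hQ⟩ : ∃ Q, Q = ⌊(X : ℝ) ^ θ⌋₊ := ⟨_, rfl⟩
  have hXθ : (1 : ℝ) ≤ (X : ℝ) ^ θ := Real.one_le_rpow hX1r hθ.le
  have hQ1 : 1 ≤ Q := by rw [hQ]; exact Nat.le_floor (by exact_mod_cast hXθ)
  have hQle : (Q : ℝ) ≤ (X : ℝ) ^ θ := by rw [hQ]; exact Nat.floor_le (by positivity)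
  -- the level
  have hlev : ∀ q ∈ Icc 1 Q, KK' (1 / 2) X ≤ X / q := by
    intro q hq
    rw [mem_Icc] at hq
    apply level (1 / 2) hc X X hX1 _ le_rfl q hq.1
    · have h1 : (q : ℝ) ≤ (X : ℝ) ^ θ := le_trans (by exact_mod_cast hq.2) hQle
      refine h1.trans ?_
      rw [← hL]
      have h2 : (X : ℝ) ^ θ = Real.exp (L * θ) := by
        rw [Real.rpow_def_of_pos hXp, hL]
      have h3 : (X : ℝ) = Real.exp L := by rw [hL, Real.exp_log hXp]
      rw [h2]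
      rw [h3]
      rw [← Real.exp_add]
      apply Real.exp_le_exp.2
      have h4 : L ^ ((1 : ℝ) / 2) = √L := by rw [Real.sqrt_eq_rpow]
      rw [h4]
      have h5 : 0 < 1 - θ := by linarith
      have h6 : 1 / (1 - θ) ≤ √L := by
        apply Real.le_sqrt_of_sq_le
        exact b2
      have h7 : √L * √L = L := Real.mul_self_sqrt (by linarith)
      have h8 : 1 ≤ (1 - θ) * √L := by
        rw [div_le_iff₀ h5] at h6
        linarith
      have h9 : √L ≤ (1 - θ) * L := by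
        have := mul_le_mul_of_nonneg_right h8 (Real.sqrt_nonneg L)
        nlinarith
      linarith
    · calc Real.exp (Real.log X / 2) ≤ Real.exp (Real.log X) := by
            apply Real.exp_le_exp.2
            linarith
        _ = X := Real.exp_log hXp
  have hv1 : ∀ j ∈ s, 1 ≤ v j ∧ v j ≤ X := by
    intro j hj
    obtain ⟨h1, h2⟩ := hv j hj
    refine ⟨?_, h1⟩
    by_contra hcon
    have : v j = 0 := by omega
    rw [this] at h2
    simp at h2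
    linarith
  have hη0 : (0 : ℝ) ≤ (X : ℝ) ^ (-κ) := by positivity
  have hmain := hsum J X (KK' (1 / 2) X) T Q a2 hQ1 hlev hT1 hTct g hg C ((X : ℝ) ^ (-κ)) (by linarith) hη0 s v hfl hv1
  rw [← hP, ← hL, ← hℓ] at hmain
  obtain ⟨n, hn⟩ : ∃ n : ℝ, n = s.card := ⟨_, rfl⟩
  have hn0 : 0 ≤ n := by rw [hn]; positivity
  rw [← hn] at hmain ⊢
  -- the two terms
  have t1 : 2 ^ U / Real.log (KK' (1 / 2) X) ^ U + 1 / (T : ℝ) ≤ 2 / ℓ ^ (A + B + 10) := by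
    have h1 : 1 / (T : ℝ) ≤ 1 / ℓ ^ (A + B + 10) := one_div_le_one_div_of_le (by positivity) hTge
    calc _ ≤ 1 / ℓ ^ (A + B + 10) + 1 / ℓ ^ (A + B + 10) := add_le_add a1 h1
      _ = _ := by ring
  have t2 : √((X : ℝ) ^ (-κ) * Q) ≤ (X : ℝ) ^ (-((κ - θ) / 2)) := by
    have h1 : (X : ℝ) ^ (-κ) * Q ≤ ((X : ℝ) ^ (-((κ - θ) / 2))) ^ 2 := by
      calc (X : ℝ) ^ (-κ) * Q ≤ (X : ℝ) ^ (-κ) * (X : ℝ) ^ θ := mul_le_mul_of_nonneg_left hQle hη0
        _ = _ := by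
          rw [← Real.rpow_add hXp, ← Real.rpow_natCast, ← Real.rpow_mul hXp.le]
          congr 1
          push_cast
          ring
    calc √((X : ℝ) ^ (-κ) * Q) ≤ √(((X : ℝ) ^ (-((κ - θ) / 2))) ^ 2) := Real.sqrt_le_sqrt h1
      _ = _ := Real.sqrt_sq (by positivity)
  have t3 : 2 * √((X : ℝ) ^ (-κ) * Q) * ℓ ^ 7 ≤ 1 / (2 * C * ℓ ^ (A + B)) := by
    have h1 : (X : ℝ) ^ (-((κ - θ) / 2)) ≤ 1 / (4 * C * ℓ ^ (A + B + 7)) := by
      rw [Real.rpow_neg hXp.le, ← one_div]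
      exact one_div_le_one_div_of_le (by positivity) b5
    calc 2 * √((X : ℝ) ^ (-κ) * Q) * ℓ ^ 7 ≤ 2 * (1 / (4 * C * ℓ ^ (A + B + 7))) * ℓ ^ 7 := by
          have := t2.trans h1
          gcongr
      _ = _ := by
          rw [pow_add ℓ (A + B) 7]
          field_simp
          norm_num
  have t4 : 16 * P * ℓ ^ 9 * (2 ^ U / Real.log (KK' (1 / 2) X) ^ U + 1 / (T : ℝ)) ≤ 1 / (2 * C * ℓ ^ (A + B)) := by
    calc 16 * P * ℓ ^ 9 * (2 ^ U / Real.log (KK' (1 / 2) X) ^ U + 1 / (T : ℝ)) ≤ 16 * P * ℓ ^ 9 * (2 / ℓ ^ (A + B + 10)) :=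
          mul_le_mul_of_nonneg_left t1 (by positivity)
      _ = (64 * P * C) / (ℓ * (2 * C * ℓ ^ (A + B))) := by
          have e10 : ℓ ^ (A + B + 10) = ℓ ^ (A + B) * ℓ ^ 9 * ℓ := by ring
          rw [e10]
          field_simp
          norm_num
      _ ≤ ℓ / (ℓ * (2 * C * ℓ ^ (A + B))) := div_le_div_of_nonneg_right b1 (by positivity)
      _ = _ := by field_simp
  have t5 : ∑ j ∈ s, DF g Q (v j) ≤ n * X * (1 / (C * ℓ ^ (A + B))) := by
    refine hmain.trans (mul_le_mul_of_nonneg_left ?_ (by positivity))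
    calc _ ≤ 1 / (2 * C * ℓ ^ (A + B)) + 1 / (2 * C * ℓ ^ (A + B)) := add_le_add t4 t3
      _ = _ := by field_simp; norm_num
  -- counting
  obtain ⟨S, hS⟩ : ∃ S, S = s.filter fun j => (v j : ℝ) / Real.log (v j) ^ A < D g (v j) ((v j : ℝ) ^ θ) := ⟨_, rfl⟩
  rw [← hS]
  have hlow : ∀ j ∈ S, X / (C * ℓ ^ A) ≤ DF g Q (v j) := by
    intro j hj
    rw [hS, mem_filter] at hj
    obtain ⟨hjs, hj2⟩ := hj
    obtain ⟨h1, h2⟩ := hv j hjs
    have hvX : (v j : ℝ) ≤ X := by exact_mod_cast h1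
    have hv2 : (2 : ℝ) ≤ v j := by
      have : C * 2 ≤ C * v j := b4.trans h2
      exact le_of_mul_le_mul_left this (by linarith)
    have hv0 : (0 : ℝ) < v j := by linarith
    have hlog0 : 0 < Real.log (v j) := Real.log_pos (by linarith)
    have hlog1 : Real.log (v j) ≤ ℓ := by
      have := Real.log_le_log hv0 hvX
      rw [← hL] at this
      linarith
    have h3 : D g (v j) ((v j : ℝ) ^ θ) ≤ DF g Q (v j) := by
      apply D_le_DF
      rw [hQ]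
      apply Nat.floor_le_floor
      exact Real.rpow_le_rpow hv0.le hvX hθ.le
    refine le_trans ?_ (hj2.le.trans h3)
    rw [div_le_div_iff₀ (by positivity) (by positivity)]
    calc (X : ℝ) * Real.log (v j) ^ A ≤ (C * v j) * ℓ ^ A :=
          mul_le_mul h2 (pow_le_pow_left₀ hlog0.le hlog1 _) (by positivity) (by positivity)
      _ = _ := by ring
  have h6 : (S.card : ℝ) * (X / (C * ℓ ^ A)) ≤ n * X * (1 / (C * ℓ ^ (A + B))) := by
    calc (S.card : ℝ) * (X / (C * ℓ ^ A)) = ∑ j ∈ S, X / (C * ℓ ^ A) := by rw [sum_const, nsmul_eq_mul]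
      _ ≤ ∑ j ∈ S, DF g Q (v j) := sum_le_sum hlow
      _ ≤ ∑ j ∈ s, DF g Q (v j) := by
          apply sum_le_sum_of_subset_of_nonneg
          · rw [hS]; exact filter_subset _ _
          · intro j _ _
            unfold DF
            exact sum_nonneg fun q _ => by positivity
      _ ≤ _ := t5
  have h7 : (S.card : ℝ) ≤ n / ℓ ^ B := by
    have hpos : (0 : ℝ) < X / (C * ℓ ^ A) := by positivity
    rw [← le_div_iff₀ hpos] at h6
    refine h6.trans (le_of_eq ?_)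
    rw [pow_add]
    field_simp
  refine h7.trans ?_
  rw [← hL]
  apply div_le_div_of_nonneg_left hn0 (by positivity)
  exact pow_le_pow_left₀ (by linarith) (by linarith) _

end Pool.Agent.N193.DE
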