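import Pool.Agent.N193.DE.R
import Pool.Agent.N193.PS.Dec2

set_option autoImplicit false

/-!
The integer parts of smoothly varying functions of a non-integral index form flat families.
-/

namespace Pool.Agent.N193.PS

open Finset Filter Topology
open Pool.Agent.H469R2.NK (e norm_e e_add conj_e)
open Pool.Agent.H807R2.Dav (ee norm_ee ee_add)
open Pool.Agent.N193.DE (Flat)

variable {c : ℝ} {φ : ℕ → ℝ → ℝ}

lemma dist_small (β : ℝ) (h0 : 0 < β) (h1 : β ≤ 1 / 2) : |β - round β| = β := by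
  rw [abs_sub_round_eq_min, Int.fract_eq_self.2 ⟨h0.le, by linarith⟩]
  exact min_eq_left (by linarith)

/-- the exponential sums over a dyadic interval -/
theorem SV.dyad (h : SV c φ) : ∃ κ : ℝ, 0 < κ ∧ κ ≤ 1 / 4 ∧ ∃ C : ℝ, 0 < C ∧ ∀ᶠ x : ℕ in atTop, ∀ β : ℝ,
    0 < β → β ≤ 1 / 2 →
    ‖∑ n ∈ Ioc x (2 * x), ee (β * (val φ n : ℕ))‖ ≤ C * (x / (β * φ 0 x) + (x : ℝ) ^ (1 - κ)) := by
  have hc := h.pos
  obtain ⟨r, hr, σ, hσ, hσ', C₁, hC₁, hA⟩ := h.valsum'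
  obtain ⟨b, C₂, hb, hC₂, hkl⟩ := h.kl
  obtain ⟨n₀, hn₀⟩ := h.val_eq
  obtain ⟨t₁, ht₁, hup⟩ := h.up 1 one_pos
  obtain ⟨t₂, ht₂, hlow⟩ := h.low (c / 4) (by linarith)
  have hr0 : (0 : ℝ) < r := by exact_mod_cast hr
  have hr1 : (1 : ℝ) ≤ r := by exact_mod_cast hr
  obtain ⟨ε, hε⟩ : ∃ ε, ε = min (c / 4) (1 / 2) := ⟨_, rfl⟩
  have hε0 : 0 < ε := by rw [hε]; exact lt_min (by linarith) (by norm_num)
  have hε1 : ε ≤ c / 4 := by rw [hε]; exact min_le_left _ _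
  have hε2 : ε ≤ 1 / 2 := by rw [hε]; exact min_le_right _ _
  obtain ⟨κ, hκ⟩ : ∃ κ, κ = min σ (ε / r) := ⟨_, rfl⟩
  have hκ0 : 0 < κ := by rw [hκ]; exact lt_min hσ (by positivity)
  have hκ1 : κ ≤ σ := by rw [hκ]; exact min_le_left _ _
  have hκ2 : κ ≤ ε / r := by rw [hκ]; exact min_le_right _ _
  have hκ3 : κ ≤ ε := hκ2.trans (div_le_self hε0.le hr1)
  refine ⟨κ, hκ0, by linarith, 6 * C₁ + 2 * C₂ + 7, by positivity, ?_⟩
  -- a lower bound for the function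
  have hlow' : ∀ᶠ x : ℝ in atTop, x ^ (c / 2) ≤ φ 0 x := by
    have h0 := (hlow t₂ t₂ le_rfl le_rfl).1
    filter_upwards [const_ev (t₂ ^ (c - c / 4) / φ 0 t₂) (c / 4) (by linarith), eventually_ge_atTop t₂,
      eventually_gt_atTop 0] with x h1 h2 h3
    have h4 := (hlow t₂ x le_rfl h2).2
    refine le_trans ?_ h4
    rw [Real.div_rpow h3.le (by linarith)]
    rw [div_le_iff₀ h0] at h1
    have ht0 : 0 < t₂ ^ (c - c / 4) := Real.rpow_pos_of_pos (by linarith) _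
    rw [mul_div_assoc', le_div_iff₀ ht0]
    calc x ^ (c / 2) * t₂ ^ (c - c / 4) ≤ x ^ (c / 2) * (x ^ (c / 4) * φ 0 t₂) :=
          mul_le_mul_of_nonneg_left h1 (by positivity)
      _ = φ 0 t₂ * x ^ (c - c / 4) := by
          have : x ^ (c - c / 4) = x ^ (c / 2) * x ^ (c / 4) := by
            rw [← Real.rpow_add h3]; congr 1; ring
          rw [this]; ring
  have hdbl : Tendsto (fun x : ℕ => 2 * x) atTop atTop := tendsto_id.const_mul_atTop' (by norm_num)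
  have hev := (tendsto_natCast_atTop_atTop (R := ℝ)).eventually
    (hlow'.and ((const_ev (b * 2 ^ (c + 1)) (1 - ε) (by linarith)).and
      ((eventually_ge_atTop (1 : ℝ)).and ((eventually_ge_atTop t₁).and (eventually_ge_atTop t₂)))))
  filter_upwards [hA, hdbl.eventually hA, hdbl.eventually hkl, hev, eventually_ge_atTop n₀] with x a1 a2 a3 a4 a5 β hβ0 hβ1
  obtain ⟨b1, b2, b3, b4, b5⟩ := a4
  have hx0 : (0 : ℝ) < x := by linarith
  have hφ0 : 0 < φ 0 x := (by positivity : 0 < (x : ℝ) ^ (c / 2)).trans_le b1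
  have h2x : ((2 * x : ℕ) : ℝ) = 2 * x := by push_cast; ring
  rw [h2x] at a3
  have hd2 := (hlow x (2 * x) b5 (by linarith)).2
  have hu2 := (hup x (2 * x) b4 (by linarith)).2
  have hratio : (2 * (x : ℝ)) / x = 2 := by field_simp
  rw [hratio] at hd2 hu2
  have hd2' : φ 0 x ≤ φ 0 (2 * x) := by
    refine le_trans ?_ hd2
    have : (1 : ℝ) ≤ 2 ^ (c - c / 4) := Real.one_le_rpow (by norm_num) (by linarith)
    nlinarith
  have hxκ : (0 : ℝ) < (x : ℝ) ^ (1 - κ) := by positivity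
  have hdist := dist_small β hβ0 hβ1
  have hmain0 : 0 ≤ (x : ℝ) / (β * φ 0 x) := by positivity
  have h1κ : 1 ≤ (x : ℝ) ^ (1 - κ) := Real.one_le_rpow b3 (by linarith)
  rcases le_or_gt ((x : ℝ) ^ ε) (β * φ 0 x) with hcase | hcase
  · -- large frequencies
    have c1 := a1 β (by rw [hdist]; exact hβ0)
    have c2 := a2 β (by rw [hdist]; exact hβ0)
    rw [hdist] at c1 c2
    rw [h2x] at c2
    have hsplit : ∑ n ∈ Ioc x (2 * x), ee (β * (val φ n : ℕ)) =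
        ∑ n ∈ Icc 1 (2 * x), ee (β * (val φ n : ℕ)) - ∑ n ∈ Icc 1 x, ee (β * (val φ n : ℕ)) := by
      have hdis : Disjoint (Icc 1 x) (Ioc x (2 * x)) := by
        rw [disjoint_left]; intro n h1 h2; rw [mem_Icc] at h1; rw [mem_Ioc] at h2; omega
      have hun : Icc 1 (2 * x) = Icc 1 x ∪ Ioc x (2 * x) := by
        ext n; rw [mem_union, mem_Icc, mem_Icc, mem_Ioc]; omega
      rw [hun, sum_union hdis]
      ring
    have hpow : (β * φ 0 x) ^ (-(1 / (r : ℝ))) ≤ (x : ℝ) ^ (-κ) := by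
      calc (β * φ 0 x) ^ (-(1 / (r : ℝ))) ≤ ((x : ℝ) ^ ε) ^ (-(1 / (r : ℝ))) :=
            Real.rpow_le_rpow_of_nonpos (by positivity) hcase (by
              have : 0 < 1 / (r : ℝ) := by positivity
              linarith)
        _ = (x : ℝ) ^ (-(ε / r)) := by
            rw [← Real.rpow_mul hx0.le]; congr 1; ring
        _ ≤ _ := Real.rpow_le_rpow_of_exponent_le b3 (by linarith)
    have hpow2 : (β * φ 0 (2 * x)) ^ (-(1 / (r : ℝ))) ≤ (x : ℝ) ^ (-κ) := by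
      refine le_trans ?_ hpow
      apply Real.rpow_le_rpow_of_nonpos (by positivity) (mul_le_mul_of_nonneg_left hd2' hβ0.le)
      have : 0 < 1 / (r : ℝ) := by positivity
      linarith
    have e1 : (x : ℝ) * (x : ℝ) ^ (-κ) = (x : ℝ) ^ (1 - κ) := by
      rw [sub_eq_add_neg, Real.rpow_add hx0, Real.rpow_one]
    have e2 : (x : ℝ) ^ (1 - σ) ≤ (x : ℝ) ^ (1 - κ) := Real.rpow_le_rpow_of_exponent_le b3 (by linarith)
    have e3 : (2 * (x : ℝ)) ^ (1 - σ) ≤ 2 * (x : ℝ) ^ (1 - κ) := by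
      rw [Real.mul_rpow (by norm_num) hx0.le]
      apply mul_le_mul _ e2 (by positivity) (by norm_num)
      calc (2 : ℝ) ^ (1 - σ) ≤ 2 ^ (1 : ℝ) := Real.rpow_le_rpow_of_exponent_le (by norm_num) (by linarith)
        _ = 2 := Real.rpow_one _
    have e4 : x * (β * φ 0 x) ^ (-(1 / (r : ℝ))) ≤ (x : ℝ) ^ (1 - κ) := by
      rw [← e1]; exact mul_le_mul_of_nonneg_left hpow hx0.le
    have e5 : 2 * x * (β * φ 0 (2 * x)) ^ (-(1 / (r : ℝ))) ≤ 2 * (x : ℝ) ^ (1 - κ) := by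
      rw [← e1, mul_assoc]
      exact mul_le_mul_of_nonneg_left (mul_le_mul_of_nonneg_left hpow2 hx0.le) (by norm_num)
    rw [hsplit]
    refine (norm_sub_le _ _).trans ?_
    have f1 : C₁ * (2 * x * (β * φ 0 (2 * x)) ^ (-(1 / (r : ℝ))) + (2 * (x : ℝ)) ^ (1 - σ)) ≤ C₁ * (4 * (x : ℝ) ^ (1 - κ)) :=
      mul_le_mul_of_nonneg_left (by linarith) hC₁.le
    have f2 : C₁ * (x * (β * φ 0 x) ^ (-(1 / (r : ℝ))) + (x : ℝ) ^ (1 - σ)) ≤ C₁ * (2 * (x : ℝ) ^ (1 - κ)) :=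
      mul_le_mul_of_nonneg_left (by linarith) hC₁.le
    have f3 : (6 * C₁) * (x : ℝ) ^ (1 - κ) ≤ (6 * C₁ + 2 * C₂ + 7) * (x / (β * φ 0 x) + (x : ℝ) ^ (1 - κ)) :=
      mul_le_mul (by linarith) (by linarith) hxκ.le (by positivity)
    calc _ ≤ C₁ * (2 * x * (β * φ 0 (2 * x)) ^ (-(1 / (r : ℝ))) + (2 * (x : ℝ)) ^ (1 - σ)) +
          C₁ * (x * (β * φ 0 x) ^ (-(1 / (r : ℝ))) + (x : ℝ) ^ (1 - σ)) := add_le_add c2 c1
      _ ≤ _ := by linarith
  · -- small frequencies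
    have hb' : b * (β * φ 0 (2 * x)) ≤ 2 * x := by
      have e1 : β * φ 0 (2 * x) ≤ (x : ℝ) ^ ε * 2 ^ (c + 1) := by
        calc β * φ 0 (2 * x) ≤ β * (φ 0 x * 2 ^ (c + 1)) := mul_le_mul_of_nonneg_left hu2 hβ0.le
          _ = (β * φ 0 x) * 2 ^ (c + 1) := by ring
          _ ≤ _ := mul_le_mul_of_nonneg_right hcase.le (by positivity)
      calc b * (β * φ 0 (2 * x)) ≤ b * ((x : ℝ) ^ ε * 2 ^ (c + 1)) := mul_le_mul_of_nonneg_left e1 hb.le
        _ = (b * 2 ^ (c + 1)) * (x : ℝ) ^ ε := by ring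
        _ ≤ (x : ℝ) ^ (1 - ε) * (x : ℝ) ^ ε := mul_le_mul_of_nonneg_right b2 (by positivity)
        _ = x := by rw [← Real.rpow_add hx0]; norm_num
        _ ≤ 2 * x := by linarith
    have hk := a3 β hβ0 hb' (x + 1) x (by push_cast; linarith) (by omega) (by omega)
    have hsum : ∑ n ∈ range x, e (β * φ 0 (((x + 1 : ℕ) : ℝ) + n)) = ∑ n ∈ Ioc x (2 * x), e (β * φ 0 n) := by
      have e1 : Ioc x (2 * x) = Ico (x + 1) (x + 1 + x) := by
        ext n; rw [mem_Ioc, mem_Ico]; omega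
      rw [e1, sum_Ico_eq_sum_range]
      have e2 : x + 1 + x - (x + 1) = x := by omega
      rw [e2]
      refine sum_congr rfl fun n _ => ?_
      push_cast
      rfl
    rw [hsum] at hk
    have hdiff : ‖∑ n ∈ Ioc x (2 * x), ee (β * (val φ n : ℕ)) - ∑ n ∈ Ioc x (2 * x), e (β * φ 0 n)‖ ≤ 7 * (x : ℝ) ^ (1 - κ) := by
      rw [← sum_sub_distrib]
      refine (norm_sum_le _ _).trans ?_
      have e1 : ∀ n ∈ Ioc x (2 * x), ‖ee (β * (val φ n : ℕ)) - e (β * φ 0 n)‖ ≤ 7 * β := by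
        intro n hn
        rw [mem_Ioc] at hn
        rw [ee_eq_e, hn₀ n (by omega)]
        refine (e_sub_le _ _).trans ?_
        apply mul_le_mul_of_nonneg_left _ (by norm_num)
        rw [← mul_sub, abs_mul, abs_of_pos hβ0]
        have e2 : |(⌊φ 0 n⌋ : ℝ) - φ 0 n| ≤ 1 := by
          have := Int.floor_le (φ 0 n)
          have := Int.lt_floor_add_one (φ 0 n)
          rw [abs_le]; constructor <;> linarith
        nlinarith
      refine (sum_le_sum e1).trans ?_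
      rw [sum_const, Nat.card_Ioc, nsmul_eq_mul]
      have e2 : ((2 * x - x : ℕ) : ℝ) = x := by
        have : 2 * x - x = x := by omega
        rw [this]
      rw [e2]
      have e3 : (x : ℝ) * β ≤ (x : ℝ) ^ (1 - κ) := by
        have e4 : β ≤ (x : ℝ) ^ (-κ) := by
          have e5 : β * (x : ℝ) ^ (c / 2) ≤ (x : ℝ) ^ ε :=
            (mul_le_mul_of_nonneg_left b1 hβ0.le).trans hcase.le
          have e6 : (x : ℝ) ^ ε = (x : ℝ) ^ (ε - c / 2) * (x : ℝ) ^ (c / 2) := by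
            rw [← Real.rpow_add hx0]; congr 1; ring
          rw [e6] at e5
          have e7 := le_of_mul_le_mul_right e5 (by positivity : 0 < (x : ℝ) ^ (c / 2))
          exact e7.trans (Real.rpow_le_rpow_of_exponent_le b3 (by linarith))
        calc (x : ℝ) * β ≤ x * (x : ℝ) ^ (-κ) := mul_le_mul_of_nonneg_left e4 hx0.le
          _ = _ := by rw [sub_eq_add_neg, Real.rpow_add hx0, Real.rpow_one]
      linarith
    have h1 := norm_le_insert' (∑ n ∈ Ioc x (2 * x), ee (β * (val φ n : ℕ))) (∑ n ∈ Ioc x (2 * x), e (β * φ 0 n))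
    have h2 : 2 * x / (β * φ 0 (2 * x)) ≤ 2 * (x / (β * φ 0 x)) := by
      rw [mul_div_assoc]
      apply mul_le_mul_of_nonneg_left _ (by norm_num)
      exact div_le_div_of_nonneg_left hx0.le (by positivity) (mul_le_mul_of_nonneg_left hd2' hβ0.le)
    have h3 : C₂ * (1 + 2 * x / (β * φ 0 (2 * x))) ≤ C₂ * ((x : ℝ) ^ (1 - κ) + 2 * (x / (β * φ 0 x))) :=
      mul_le_mul_of_nonneg_left (by linarith) hC₂.le
    have h4 : 0 ≤ C₁ * (x / (β * φ 0 x)) := by positivity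
    have h5 : 0 ≤ C₁ * (x : ℝ) ^ (1 - κ) := by positivity
    have h6 : 0 ≤ C₂ * (x : ℝ) ^ (1 - κ) := by positivity
    nlinarith

end Pool.Agent.N193.PS
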