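import Pool.Agent.N193.DE.V

set_option autoImplicit false

/-!
The integer parts of smoothly varying functions of a non-integral index form flat families.
-/

namespace Pool.Agent.N193.PS

open Finset Filter Topology
open Pool.Agent.H807R2.Dav (ee norm_ee ee_add ee_int)
open Pool.Agent.H373R2.T7 (conj_ee)
open Pool.Agent.N193.DE (Flat)

variable {c : ℝ} {φ : ℕ → ℝ → ℝ}

/-- the translates of the values over a dyadic interval form a flat family -/
theorem SV.flat (h : SV c φ) : ∃ κ : ℝ, 0 < κ ∧ κ ≤ 1 ∧ ∀ B : ℝ, 0 ≤ B → ∃ C : ℝ, 1 ≤ C ∧ ∃ x₀ : ℕ, ∀ x : ℕ, x₀ ≤ x →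
    ∀ c₀ : ℤ, -(φ 0 x) / 2 ≤ c₀ → (c₀ : ℝ) ≤ B * φ 0 x → ∃ X : ℕ, φ 0 x ≤ X ∧ (x : ℝ) ^ (c / 2) ≤ X ∧
      (∀ n ∈ Ioc x (2 * x), (((c₀ + (val φ n : ℕ)).toNat : ℕ) : ℤ) = c₀ + (val φ n : ℕ)) ∧
      Flat C ((X : ℝ) ^ (-κ)) (2 * X + 1) (Ioc x (2 * x)) (fun n => (c₀ + (val φ n : ℕ)).toNat) ∧
      ∀ n ∈ Ioc x (2 * x), 2 * (c₀ + (val φ n : ℕ)).toNat ≤ X ∧ (X : ℝ) ≤ C * ((c₀ + (val φ n : ℕ)).toNat : ℕ) := by
  have hc := h.pos
  obtain ⟨κ₁, hκ₁, hκ₁', C₁, hC₁, hA⟩ := h.dyad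
  obtain ⟨t₁, ht₁, hup⟩ := h.up (1 / 2) (by norm_num)
  obtain ⟨t₂, ht₂, hlow⟩ := h.low (c / 4) (by linarith)
  obtain ⟨κ, hκ⟩ : ∃ κ, κ = κ₁ / (2 * (c + 1)) := ⟨_, rfl⟩
  have hκ0 : 0 < κ := by rw [hκ]; positivity
  have hκ1 : κ ≤ 1 := by
    rw [hκ, div_le_one (by positivity)]
    nlinarith
  refine ⟨κ, hκ0, hκ1, fun B hB => ?_⟩
  obtain ⟨K, hK⟩ : ∃ K : ℝ, K = 2 * (2 ^ (c + 1) + B + 1) := ⟨_, rfl⟩
  have h2c : (1 : ℝ) ≤ 2 ^ (c + 1) := Real.one_le_rpow (by norm_num) (by linarith)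
  have hK1 : 1 ≤ K := by rw [hK]; linarith
  obtain ⟨C, hC⟩ : ∃ C : ℝ, C = 6 * K * C₁ + 8 * K := ⟨_, rfl⟩
  have hC1 : 1 ≤ C := by
    rw [hC]
    have : 0 ≤ 6 * K * C₁ := by positivity
    linarith
  -- growth
  have hlow' : ∀ᶠ x : ℝ in atTop, x ^ (c / 2) ≤ φ 0 x := by
    have h0 := (hlow t₂ t₂ le_rfl le_rfl).1
    filter_upwards [const_ev (t₂ ^ (c - c / 4) / φ 0 t₂) (c / 4) (by linarith), eventually_ge_atTop t₂,
      eventually_gt_atTop 0] with x h1 h2 h3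
    have h4 := (hlow t₂ x le_rfl h2).2
    refine le_trans ?_ h4
    rw [Real.div_rpow h3.le (by linarith)]
    rw [div_le_iff₀ h0] at h1
    have ht0 : 0 < t₂ ^ (c - c / 4) := Real.rpow_pos_of_pos (by linarith) _
    rw [mul_div_assoc', le_div_iff₀ ht0]
    calc x ^ (c / 2) * t₂ ^ (c - c / 4) ≤ x ^ (c / 2) * (x ^ (c / 4) * φ 0 t₂) :=
          mul_le_mul_of_nonneg_left h1 (by positivity)
      _ = φ 0 t₂ * x ^ (c - c / 4) := by
          have : x ^ (c - c / 4) = x ^ (c / 2) * x ^ (c / 4) := by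
            rw [← Real.rpow_add h3]; congr 1; ring
          rw [this]; ring
  have hup' : ∀ᶠ x : ℝ in atTop, 2 * K * φ 0 x ≤ x ^ (c + 1) := by
    have h0 := (hup t₁ t₁ le_rfl le_rfl).1
    filter_upwards [const_ev (2 * K * φ 0 t₁) (1 / 2) (by norm_num), eventually_ge_atTop t₁,
      eventually_ge_atTop 1] with x h1 h2 h3
    have h4 := (hup t₁ x le_rfl h2).2
    have hx0 : 0 < x := by linarith
    have h5 : (x / t₁) ^ (c + 1 / 2) ≤ x ^ (c + 1 / 2) := by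
      apply Real.rpow_le_rpow (by positivity) _ (by linarith)
      exact div_le_self hx0.le ht₁
    calc 2 * K * φ 0 x ≤ 2 * K * (φ 0 t₁ * (x / t₁) ^ (c + 1 / 2)) := mul_le_mul_of_nonneg_left h4 (by positivity)
      _ ≤ 2 * K * (φ 0 t₁ * x ^ (c + 1 / 2)) := by gcongr
      _ = (2 * K * φ 0 t₁) * x ^ (c + 1 / 2) := by ring
      _ ≤ x ^ ((1 : ℝ) / 2) * x ^ (c + 1 / 2) := mul_le_mul_of_nonneg_right h1 (by positivity)
      _ = x ^ (c + 1) := by rw [← Real.rpow_add hx0]; congr 1; ring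
  have hev := (tendsto_natCast_atTop_atTop (R := ℝ)).eventually
    (hlow'.and (hup'.and ((const_ev C₁ (κ₁ / 2) (by linarith)).and ((const_ev 8 (c / 2) (by linarith)).and
      ((eventually_ge_atTop (1 : ℝ)).and ((eventually_ge_atTop t₁).and (eventually_ge_atTop t₂)))))))
  obtain ⟨x₀, hx₀⟩ := eventually_atTop.mp (hA.and hev)
  refine ⟨C, hC1, x₀, fun x hx c₀ hc1 hc2 => ?_⟩
  obtain ⟨a1, b1, b2, b3, b4, b5, b6, b7⟩ := hx₀ x hx
  have hx0 : (0 : ℝ) < x := by linarith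
  have hφ8 : 8 ≤ φ 0 x := b4.trans b1
  have hφ0 : 0 < φ 0 x := by linarith
  obtain ⟨X, hX⟩ : ∃ X, X = ⌈K * φ 0 x⌉₊ := ⟨_, rfl⟩
  have hX1 : K * φ 0 x ≤ X := by rw [hX]; exact Nat.le_ceil _
  have hX2 : (X : ℝ) ≤ 2 * K * φ 0 x := by
    have := (Nat.ceil_lt_add_one (show 0 ≤ K * φ 0 x by positivity)).le
    rw [← hX] at this
    nlinarith
  have hφX : φ 0 x ≤ X := by nlinarith
  have hX0 : (0 : ℝ) < X := by linarith
  -- the values
  have hval : ∀ n ∈ Ioc x (2 * x), φ 0 x - 1 ≤ ((val φ n : ℕ) : ℝ) ∧ ((val φ n : ℕ) : ℝ) ≤ 2 ^ (c + 1) * φ 0 x := by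
    intro n hn
    rw [mem_Ioc] at hn
    have hxn : (x : ℝ) ≤ n := by exact_mod_cast hn.1.le
    have hn2 : (n : ℝ) ≤ 2 * x := by exact_mod_cast hn.2
    have e1 := (hlow x n b7 hxn).2
    have e2 := (hup x n b6 hxn).2
    have e3 : (1 : ℝ) ≤ ((n : ℝ) / x) ^ (c - c / 4) := Real.one_le_rpow (by rw [le_div_iff₀ hx0]; linarith) (by linarith)
    have e4 : ((n : ℝ) / x) ^ (c + 1 / 2) ≤ 2 ^ (c + 1) := by
      calc ((n : ℝ) / x) ^ (c + 1 / 2) ≤ 2 ^ (c + 1 / 2) := by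
            apply Real.rpow_le_rpow (by positivity) _ (by linarith)
            rw [div_le_iff₀ hx0]; linarith
        _ ≤ 2 ^ (c + 1) := Real.rpow_le_rpow_of_exponent_le (by norm_num) (by linarith)
    have e5 : φ 0 x ≤ φ 0 n := by nlinarith
    unfold val
    constructor
    · have := Nat.lt_floor_add_one (φ 0 n)
      linarith
    · have := Nat.floor_le (show 0 ≤ φ 0 n by linarith)
      nlinarith
  have hpos : ∀ n ∈ Ioc x (2 * x), (((c₀ + (val φ n : ℕ)).toNat : ℕ) : ℤ) = c₀ + (val φ n : ℕ) := by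
    intro n hn
    obtain ⟨e1, _⟩ := hval n hn
    apply Int.toNat_of_nonneg
    have : (0 : ℝ) ≤ ((c₀ + (val φ n : ℕ) : ℤ) : ℝ) := by push_cast; linarith
    exact_mod_cast this
  have hposr : ∀ n ∈ Ioc x (2 * x), (((c₀ + (val φ n : ℕ)).toNat : ℕ) : ℝ) = c₀ + ((val φ n : ℕ) : ℝ) := by
    intro n hn
    have := hpos n hn
    exact_mod_cast this
  refine ⟨X, hφX, b1.trans hφX, hpos, ?_, ?_⟩
  · -- flat
    intro k hk hkM
    obtain ⟨M, hM⟩ : ∃ M, M = 2 * X + 1 := ⟨_, rfl⟩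
    rw [← hM] at hkM ⊢
    have hk0 : (0 : ℝ) < k := by exact_mod_cast hk
    have hkM' : (k : ℝ) < M := by exact_mod_cast hkM
    have hM0 : (0 : ℝ) < M := by linarith
    have hMk : (0 : ℝ) < (M : ℝ) - k := by linarith
    have hMle : (M : ℝ) ≤ 6 * K * φ 0 x := by
      rw [hM]; push_cast
      nlinarith
    rw [Nat.card_Ioc]
    have ecard : ((2 * x - x : ℕ) : ℝ) = x := by
      have : 2 * x - x = x := by omega
      rw [this]
    rw [ecard]
    -- remove the translation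
    have h1 : ‖∑ n ∈ Ioc x (2 * x), ee ((k : ℝ) / M * ((c₀ + (val φ n : ℕ)).toNat : ℕ))‖ =
        ‖∑ n ∈ Ioc x (2 * x), ee ((k : ℝ) / M * (val φ n : ℕ))‖ := by
      have e1 : ∑ n ∈ Ioc x (2 * x), ee ((k : ℝ) / M * ((c₀ + (val φ n : ℕ)).toNat : ℕ)) =
          ee ((k : ℝ) / M * c₀) * ∑ n ∈ Ioc x (2 * x), ee ((k : ℝ) / M * (val φ n : ℕ)) := by
        rw [mul_sum]
        refine sum_congr rfl fun n hn => ?_
        rw [← ee_add, hposr n hn]
        congr 1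
        ring
      rw [e1, norm_mul, norm_ee, one_mul]
    rw [h1]
    -- the frequency
    obtain ⟨β, hβ0, hβ1, hβ2, hβ3⟩ : ∃ β : ℝ, 0 < β ∧ β ≤ 1 / 2 ∧ 1 / β ≤ M * (1 / k + 1 / (M - k)) ∧
        ‖∑ n ∈ Ioc x (2 * x), ee ((k : ℝ) / M * (val φ n : ℕ))‖ = ‖∑ n ∈ Ioc x (2 * x), ee (β * (val φ n : ℕ))‖ := by
      rcases le_or_gt ((k : ℝ) / M) (1 / 2) with h2 | h2
      · refine ⟨k / M, by positivity, h2, ?_, rfl⟩
        have e1 : 1 / ((k : ℝ) / M) = M * (1 / k) := by field_simp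
        rw [e1, mul_add]
        have : 0 ≤ (M : ℝ) * (1 / (M - k)) := by positivity
        linarith
      · refine ⟨(M - k) / M, by positivity, ?_, ?_, ?_⟩
        · rw [sub_div, div_self hM0.ne']; linarith
        · have e1 : 1 / (((M : ℝ) - k) / M) = M * (1 / (M - k)) := by field_simp
          rw [e1, mul_add]
          have : 0 ≤ (M : ℝ) * (1 / k) := by positivity
          linarith
        · rw [← Complex.norm_conj, map_sum]
          congr 1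
          refine sum_congr rfl fun n _ => ?_
          rw [conj_ee]
          have e1 : ((M : ℝ) - k) / M * (val φ n : ℕ) = -((k : ℝ) / M * (val φ n : ℕ)) + (((val φ n : ℕ) : ℤ) : ℝ) := by
            push_cast
            field_simp
            ring
          rw [e1, ee_add, ee_int, mul_one]
    rw [hβ3]
    refine (a1 β hβ0 hβ1).trans ?_
    have e1 : (x : ℝ) / (β * φ 0 x) ≤ x * (6 * K * (1 / k + 1 / (M - k))) := by
      have e2 : (x : ℝ) / (β * φ 0 x) = x * (1 / β) / φ 0 x := by field_simp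
      rw [e2, div_le_iff₀ hφ0]
      calc (x : ℝ) * (1 / β) ≤ x * (M * (1 / k + 1 / (M - k))) := mul_le_mul_of_nonneg_left hβ2 hx0.le
        _ ≤ x * ((6 * K * φ 0 x) * (1 / k + 1 / (M - k))) := by gcongr
        _ = _ := by ring
    have e3 : C₁ * (x : ℝ) ^ (1 - κ₁) ≤ x * (X : ℝ) ^ (-κ) := by
      have e4 : (X : ℝ) ^ κ ≤ (x : ℝ) ^ (κ₁ / 2) := by
        calc (X : ℝ) ^ κ ≤ ((x : ℝ) ^ (c + 1)) ^ κ := Real.rpow_le_rpow hX0.le (hX2.trans b2) hκ0.le
          _ = (x : ℝ) ^ (κ₁ / 2) := by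
              rw [← Real.rpow_mul hx0.le, hκ]
              congr 1
              field_simp
      have e5 : (x : ℝ) ^ (-(κ₁ / 2)) ≤ (X : ℝ) ^ (-κ) := by
        rw [Real.rpow_neg hx0.le, Real.rpow_neg hX0.le]
        exact inv_anti₀ (by positivity) e4
      calc C₁ * (x : ℝ) ^ (1 - κ₁) ≤ (x : ℝ) ^ (κ₁ / 2) * (x : ℝ) ^ (1 - κ₁) :=
            mul_le_mul_of_nonneg_right b3 (by positivity)
        _ = x * (x : ℝ) ^ (-(κ₁ / 2)) := by
            rw [← Real.rpow_add hx0]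
            nth_rw 2 [← Real.rpow_one (x : ℝ)]
            rw [← Real.rpow_add hx0]
            congr 1
            ring
        _ ≤ _ := mul_le_mul_of_nonneg_left e5 hx0.le
    have e6 : 0 ≤ 1 / (k : ℝ) + 1 / ((M : ℝ) - k) := by positivity
    have e7 : C₁ * (x / (β * φ 0 x)) ≤ x * (C * (1 / k + 1 / (M - k))) := by
      calc C₁ * (x / (β * φ 0 x)) ≤ C₁ * (x * (6 * K * (1 / k + 1 / (M - k)))) := mul_le_mul_of_nonneg_left e1 hC₁.le
        _ = x * ((6 * K * C₁) * (1 / k + 1 / (M - k))) := by ring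
        _ ≤ _ := by
            apply mul_le_mul_of_nonneg_left _ hx0.le
            apply mul_le_mul_of_nonneg_right _ e6
            rw [hC]
            have : 0 ≤ 8 * K := by linarith
            linarith
    calc C₁ * (x / (β * φ 0 x) + (x : ℝ) ^ (1 - κ₁)) = C₁ * (x / (β * φ 0 x)) + C₁ * (x : ℝ) ^ (1 - κ₁) := by ring
      _ ≤ x * (C * (1 / k + 1 / (M - k))) + x * (X : ℝ) ^ (-κ) := add_le_add e7 e3
      _ = _ := by ring
  · intro n hn
    obtain ⟨e1, e2⟩ := hval n hn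
    have e3 := hposr n hn
    constructor
    · have : ((2 * (c₀ + (val φ n : ℕ)).toNat : ℕ) : ℝ) ≤ X := by
        push_cast
        rw [e3]
        refine le_trans ?_ hX1
        rw [hK]
        nlinarith
      exact_mod_cast this
    · rw [e3]
      have e4 : φ 0 x / 4 ≤ c₀ + ((val φ n : ℕ) : ℝ) := by linarith
      calc (X : ℝ) ≤ 2 * K * φ 0 x := hX2
        _ = 8 * K * (φ 0 x / 4) := by ring
        _ ≤ 8 * K * (c₀ + ((val φ n : ℕ) : ℝ)) := by gcongr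
        _ ≤ _ := by
            apply mul_le_mul_of_nonneg_right _ (by linarith)
            rw [hC]
            have : 0 ≤ 6 * K * C₁ := by positivity
            linarith

end Pool.Agent.N193.PS
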