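import Pool.Agent.R311.DEH.A7

set_option autoImplicit false

/-!
Mean squares of additive convolutions over thin families of integers.
-/

namespace Pool.Agent.N193.DE

open Finset
open Pool.Agent.H807R2.Dav (ee norm_ee ee_add)
open Pool.Agent.H373R2.T7 (orth conj_ee parseval_Icc)
open Pool.Agent.R311.DEH (cv cv_fourier cv_eq)

variable {J : Type}

/-- The exponential sums over the family at the rational frequencies `k / M` are small outside a neighbourhood of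
the integers. -/
def Flat (C η : ℝ) (M : ℕ) (s : Finset J) (v : J → ℕ) : Prop :=
  ∀ k : ℕ, 1 ≤ k → k < M → ‖∑ j ∈ s, ee ((k : ℝ) / M * v j)‖ ≤
    s.card * (C * (1 / (k : ℝ) + 1 / ((M : ℝ) - k)) + η)

/-- the kernel -/
noncomputable def fk (M : ℕ) (k : ℕ) : ℝ := 1 / (k : ℝ) + 1 / ((M : ℝ) - k)

lemma fk_nonneg (M k : ℕ) (hk : k < M) : 0 ≤ fk M k := by
  have : (k : ℝ) < M := by exact_mod_cast hk
  unfold fk
  have h1 : 0 < (M : ℝ) - k := by linarith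
  positivity

lemma sum_fk (M : ℕ) (hM : 1 ≤ M) : ∑ k ∈ Icc 1 (M - 1), fk M k ≤ 2 * (1 + Real.log M) := by
  unfold fk
  rw [sum_add_distrib]
  have h1 : ∑ k ∈ Icc 1 (M - 1), 1 / ((M : ℝ) - k) = ∑ k ∈ Icc 1 (M - 1), 1 / (k : ℝ) := by
    apply sum_nbij' (fun k => M - k) (fun k => M - k)
    · intro k hk; rw [mem_Icc] at hk ⊢; omega
    · intro k hk; rw [mem_Icc] at hk ⊢; omega
    · intro k hk; rw [mem_Icc] at hk; omega
    · intro k hk; rw [mem_Icc] at hk; omega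
    · intro k hk
      rw [mem_Icc] at hk
      rw [Nat.cast_sub (by omega)]
  have h2 : ∑ k ∈ Icc 1 (M - 1), 1 / (k : ℝ) ≤ 1 + Real.log M := by
    refine le_trans ?_ (Pool.Agent.R311.DEH.harm_le M)
    apply sum_le_sum_of_subset_of_nonneg
    · intro k hk; rw [mem_Icc] at hk ⊢; omega
    · intro _ _ _; positivity
  rw [h1]
  linarith

/-- the distance -/
def dst (t u : ℕ) : ℕ := (t - u) + (u - t)

lemma dst_comm (t u : ℕ) : dst t u = dst u t := by unfold dst; omega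

lemma row_sum (M t : ℕ) (ht : t < M) :
    ∑ u ∈ (range M).filter (fun u => u ≠ t), fk M (dst t u) ≤ 4 * (1 + Real.log M) := by
  have hM : 1 ≤ M := by omega
  have hsplit : (range M).filter (fun u => u ≠ t) = (range t) ∪ (Ioo t M) := by
    ext u; rw [mem_filter, mem_union, mem_range, mem_range, mem_Ioo]; omega
  have hdisj : Disjoint (range t) (Ioo t M) := by
    rw [disjoint_left]; intro u h1 h2; rw [mem_range] at h1; rw [mem_Ioo] at h2; omega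
  rw [hsplit, sum_union hdisj]
  have h1 : ∑ u ∈ range t, fk M (dst t u) ≤ ∑ k ∈ Icc 1 (M - 1), fk M k := by
    have e : ∑ u ∈ range t, fk M (dst t u) = ∑ k ∈ (range t).image (fun u => t - u), fk M k := by
      rw [sum_image]
      · refine sum_congr rfl fun u hu => ?_
        rw [mem_range] at hu
        congr 1
        unfold dst; omega
      · intro a ha b hb hab
        simp only [coe_range, Set.mem_Iio] at ha hb
        dsimp only at hab
        omega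
    rw [e]
    apply sum_le_sum_of_subset_of_nonneg
    · intro k hk
      rw [mem_image] at hk
      obtain ⟨u, hu, rfl⟩ := hk
      rw [mem_range] at hu
      rw [mem_Icc]; omega
    · intro k hk _
      rw [mem_Icc] at hk
      exact fk_nonneg M k (by omega)
  have h2 : ∑ u ∈ Ioo t M, fk M (dst t u) ≤ ∑ k ∈ Icc 1 (M - 1), fk M k := by
    have e : ∑ u ∈ Ioo t M, fk M (dst t u) = ∑ k ∈ (Ioo t M).image (fun u => u - t), fk M k := by
      rw [sum_image]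
      · refine sum_congr rfl fun u hu => ?_
        rw [mem_Ioo] at hu
        congr 1
        unfold dst; omega
      · intro a ha b hb hab
        simp only [coe_Ioo, Set.mem_Ioo] at ha hb
        dsimp only at hab
        omega
    rw [e]
    apply sum_le_sum_of_subset_of_nonneg
    · intro k hk
      rw [mem_image] at hk
      obtain ⟨u, hu, rfl⟩ := hk
      rw [mem_Ioo] at hu
      rw [mem_Icc]; omega
    · intro k hk _
      rw [mem_Icc] at hk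
      exact fk_nonneg M k (by omega)
  have h3 := sum_fk M hM
  linarith

/-- the exponential sums over the family at the differences of two frequencies -/
lemma flat_diff {C η : ℝ} {M : ℕ} {s : Finset J} {v : J → ℕ} (h : Flat C η M s v) (t u : ℕ)
    (ht : t < M) (hu : u < M) (hne : u ≠ t) :
    ‖∑ j ∈ s, ee (((u : ℝ) - t) / M * v j)‖ ≤ s.card * (C * fk M (dst t u) + η) := by
  rcases Nat.lt_or_ge t u with h1 | h1
  · have h2 := h (u - t) (by omega) (by omega)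
    have e : dst t u = u - t := by unfold dst; omega
    rw [e]
    unfold fk
    rw [Nat.cast_sub h1.le] at h2 ⊢
    exact h2
  · have h2 := h (t - u) (by omega) (by omega)
    have e : dst t u = t - u := by unfold dst; omega
    rw [e]
    unfold fk
    rw [Nat.cast_sub h1] at h2 ⊢
    refine le_trans (le_of_eq ?_) h2
    rw [← Complex.norm_conj, map_sum]
    congr 1
    refine sum_congr rfl fun j _ => ?_
    rw [conj_ee]
    congr 1
    ring

/-- **The dual large sieve inequality for a flat family.** -/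
theorem dual_ms {C η : ℝ} (hC : 0 ≤ C) (hη : 0 ≤ η) {M : ℕ} {s : Finset J} {v : J → ℕ} (h : Flat C η M s v)
    (c : ℕ → ℂ) :
    ∑ j ∈ s, ‖∑ t ∈ range M, c t * ee (-((t : ℝ) / M * v j))‖ ^ 2 ≤
      s.card * ((1 + 4 * C * (1 + Real.log M)) * ∑ t ∈ range M, ‖c t‖ ^ 2 + η * (∑ t ∈ range M, ‖c t‖) ^ 2) := by
  classical
  -- expansion
  have hexp : ((∑ j ∈ s, ‖∑ t ∈ range M, c t * ee (-((t : ℝ) / M * v j))‖ ^ 2 : ℝ) : ℂ) =
      ∑ t ∈ range M, ∑ u ∈ range M, c t * (starRingEnd ℂ) (c u) * ∑ j ∈ s, ee (((u : ℝ) - t) / M * v j) := by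
    push_cast
    have h1 : ∀ j ∈ s, ((‖∑ t ∈ range M, c t * ee (-((t : ℝ) / M * v j))‖ : ℂ)) ^ 2 =
        ∑ t ∈ range M, ∑ u ∈ range M, c t * (starRingEnd ℂ) (c u) * ee (((u : ℝ) - t) / M * v j) := by
      intro j _
      rw [← Complex.mul_conj', map_sum, sum_mul_sum]
      refine sum_congr rfl fun t _ => sum_congr rfl fun u _ => ?_
      rw [map_mul, conj_ee]
      have h2 : ee (((u : ℝ) - t) / M * v j) = ee (-((t : ℝ) / M * v j)) * ee (-(-((u : ℝ) / M * v j))) := by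
        rw [← ee_add]
        congr 1
        ring
      rw [h2]
      ring
    rw [sum_congr rfl h1, sum_comm]
    refine sum_congr rfl fun t _ => ?_
    rw [sum_comm]
    refine sum_congr rfl fun u _ => ?_
    rw [mul_sum]
  have hle : ∑ j ∈ s, ‖∑ t ∈ range M, c t * ee (-((t : ℝ) / M * v j))‖ ^ 2 ≤
      ∑ t ∈ range M, ∑ u ∈ range M, ‖c t‖ * ‖c u‖ * ‖∑ j ∈ s, ee (((u : ℝ) - t) / M * v j)‖ := by
    have h0 : 0 ≤ ∑ j ∈ s, ‖∑ t ∈ range M, c t * ee (-((t : ℝ) / M * v j))‖ ^ 2 :=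
      sum_nonneg fun _ _ => by positivity
    calc ∑ j ∈ s, ‖∑ t ∈ range M, c t * ee (-((t : ℝ) / M * v j))‖ ^ 2 =
        ‖((∑ j ∈ s, ‖∑ t ∈ range M, c t * ee (-((t : ℝ) / M * v j))‖ ^ 2 : ℝ) : ℂ)‖ := by
          rw [Complex.norm_real, Real.norm_of_nonneg h0]
      _ ≤ _ := by
          rw [hexp]
          refine (norm_sum_le _ _).trans (sum_le_sum fun t _ => (norm_sum_le _ _).trans (sum_le_sum fun u _ => ?_))
          rw [norm_mul, norm_mul, RCLike.norm_conj]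
  refine hle.trans ?_
  -- the bound of one term
  have hterm : ∀ t ∈ range M, ∀ u ∈ range M, ‖c t‖ * ‖c u‖ * ‖∑ j ∈ s, ee (((u : ℝ) - t) / M * v j)‖ ≤
      s.card * ((if u = t then ‖c t‖ ^ 2 else 0) + C * (if u ≠ t then (‖c t‖ ^ 2 + ‖c u‖ ^ 2) / 2 * fk M (dst t u) else 0) +
        η * (‖c t‖ * ‖c u‖)) := by
    intro t ht u hu
    rw [mem_range] at ht hu
    by_cases hut : u = t
    · rw [if_pos hut, if_neg (by simpa using hut), hut]
      have h1 : ‖∑ j ∈ s, ee (((t : ℝ) - t) / M * v j)‖ ≤ s.card := by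
        refine (norm_sum_le _ _).trans ?_
        simp [norm_ee]
      have h2 : (0 : ℝ) ≤ s.card * (η * (‖c t‖ * ‖c t‖)) := by positivity
      calc ‖c t‖ * ‖c t‖ * ‖∑ j ∈ s, ee (((t : ℝ) - t) / M * v j)‖ ≤ ‖c t‖ * ‖c t‖ * s.card :=
            mul_le_mul_of_nonneg_left h1 (by positivity)
        _ ≤ _ := by rw [mul_zero, add_zero, mul_add]; nlinarith
    · rw [if_neg hut, if_pos hut]
      have h1 := flat_diff h t u ht hu hut
      have hd : dst t u < M := by unfold dst; omega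
      have hf := fk_nonneg M (dst t u) hd
      have h3 : ‖c t‖ * ‖c u‖ ≤ (‖c t‖ ^ 2 + ‖c u‖ ^ 2) / 2 := by nlinarith [sq_nonneg (‖c t‖ - ‖c u‖)]
      calc ‖c t‖ * ‖c u‖ * ‖∑ j ∈ s, ee (((u : ℝ) - t) / M * v j)‖ ≤
            ‖c t‖ * ‖c u‖ * (s.card * (C * fk M (dst t u) + η)) := mul_le_mul_of_nonneg_left h1 (by positivity)
        _ = s.card * (C * ((‖c t‖ * ‖c u‖) * fk M (dst t u)) + η * (‖c t‖ * ‖c u‖)) := by ring
        _ ≤ s.card * (C * ((‖c t‖ ^ 2 + ‖c u‖ ^ 2) / 2 * fk M (dst t u)) + η * (‖c t‖ * ‖c u‖)) := by gcongr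
        _ = _ := by ring
  refine (sum_le_sum fun t ht => sum_le_sum fun u hu => hterm t ht u hu).trans ?_
  simp_rw [← mul_sum]
  refine mul_le_mul_of_nonneg_left ?_ (Nat.cast_nonneg _)
  simp_rw [sum_add_distrib, ← mul_sum]
  have e1 : ∑ t ∈ range M, ∑ u ∈ range M, (if u = t then ‖c t‖ ^ 2 else 0) = ∑ t ∈ range M, ‖c t‖ ^ 2 := by
    refine sum_congr rfl fun t ht => ?_
    rw [sum_ite_eq' (range M) t, if_pos ht]
  have e2 : ∑ t ∈ range M, ‖c t‖ * ∑ u ∈ range M, ‖c u‖ = (∑ t ∈ range M, ‖c t‖) ^ 2 := by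
    rw [← sum_mul, sq]
  have e3 : ∑ t ∈ range M, ∑ u ∈ range M, (if u ≠ t then (‖c t‖ ^ 2 + ‖c u‖ ^ 2) / 2 * fk M (dst t u) else 0) ≤
      4 * (1 + Real.log M) * ∑ t ∈ range M, ‖c t‖ ^ 2 := by
    have f1 : ∑ t ∈ range M, ∑ u ∈ range M, (if u ≠ t then (‖c t‖ ^ 2 + ‖c u‖ ^ 2) / 2 * fk M (dst t u) else 0) =
        ∑ t ∈ range M, ∑ u ∈ range M, (if u ≠ t then ‖c t‖ ^ 2 * fk M (dst t u) else 0) := by
      have g1 : ∑ t ∈ range M, ∑ u ∈ range M, (if u ≠ t then (‖c t‖ ^ 2 + ‖c u‖ ^ 2) / 2 * fk M (dst t u) else 0) =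
          (∑ t ∈ range M, ∑ u ∈ range M, (if u ≠ t then ‖c t‖ ^ 2 * fk M (dst t u) else 0) +
            ∑ t ∈ range M, ∑ u ∈ range M, (if u ≠ t then ‖c u‖ ^ 2 * fk M (dst t u) else 0)) / 2 := by
        rw [← sum_add_distrib, sum_div]
        refine sum_congr rfl fun t _ => ?_
        rw [← sum_add_distrib, sum_div]
        refine sum_congr rfl fun u _ => ?_
        split_ifs <;> ring
      have g2 : ∑ t ∈ range M, ∑ u ∈ range M, (if u ≠ t then ‖c u‖ ^ 2 * fk M (dst t u) else 0) =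
          ∑ t ∈ range M, ∑ u ∈ range M, (if u ≠ t then ‖c t‖ ^ 2 * fk M (dst t u) else 0) := by
        rw [sum_comm]
        refine sum_congr rfl fun t _ => sum_congr rfl fun u _ => ?_
        rw [dst_comm u t]
        by_cases hh : u = t
        · rw [if_neg (by simpa using hh.symm), if_neg (by simpa using hh)]
        · rw [if_pos (fun h => hh h.symm), if_pos hh]
      rw [g1, g2]
      ring
    rw [f1, mul_sum]
    refine sum_le_sum fun t ht => ?_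
    rw [← sum_filter, ← mul_sum]
    have := row_sum M t (mem_range.1 ht)
    calc ‖c t‖ ^ 2 * ∑ u ∈ (range M).filter (fun u => u ≠ t), fk M (dst t u) ≤ ‖c t‖ ^ 2 * (4 * (1 + Real.log M)) :=
          mul_le_mul_of_nonneg_left this (by positivity)
      _ = _ := by ring
  rw [e1, e2]
  have e4 := mul_le_mul_of_nonneg_left e3 hC
  nlinarith

/-- the inversion formula -/
lemma inv_cv (X : ℕ) (a b : ℕ → ℂ) (N : ℕ) (hN : N ∈ Icc 1 (2 * X)) :
    cv X a b N = ∑ t ∈ range (2 * X + 1), (1 / ((2 * X + 1 : ℕ) : ℂ) *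
      ∑ N' ∈ Icc 1 (2 * X), cv X a b N' * ee ((t : ℝ) * ((((1 : ℤ) * N' : ℤ) : ℝ) / (2 * X + 1 : ℕ)))) *
        ee (-((t : ℝ) / (2 * X + 1 : ℕ) * N)) := by
  have hM0 : ((2 * X + 1 : ℕ) : ℂ) ≠ 0 := by exact_mod_cast (by omega : 2 * X + 1 ≠ 0)
  have h1 : ∀ t ∈ range (2 * X + 1), (1 / ((2 * X + 1 : ℕ) : ℂ) *
      ∑ N' ∈ Icc 1 (2 * X), cv X a b N' * ee ((t : ℝ) * ((((1 : ℤ) * N' : ℤ) : ℝ) / (2 * X + 1 : ℕ)))) *
        ee (-((t : ℝ) / (2 * X + 1 : ℕ) * N)) = 1 / ((2 * X + 1 : ℕ) : ℂ) * ∑ N' ∈ Icc 1 (2 * X), cv X a b N' *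
        ee ((t : ℝ) * ((((N' : ℤ) - N : ℤ) : ℝ) / (2 * X + 1 : ℕ))) := by
    intro t _
    rw [mul_assoc, sum_mul]
    congr 1
    refine sum_congr rfl fun N' _ => ?_
    rw [mul_assoc, ← ee_add]
    congr 2
    push_cast
    ring
  rw [sum_congr rfl h1, ← mul_sum, sum_comm]
  have h2 : ∀ N' ∈ Icc 1 (2 * X), ∑ t ∈ range (2 * X + 1), cv X a b N' *
      ee ((t : ℝ) * ((((N' : ℤ) - N : ℤ) : ℝ) / (2 * X + 1 : ℕ))) = if N' = N then cv X a b N * ((2 * X + 1 : ℕ) : ℂ) else 0 := by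
    intro N' hN'
    rw [← mul_sum, orth (2 * X + 1) (by omega)]
    rw [mem_Icc] at hN hN'
    by_cases h3 : N' = N
    · rw [if_pos h3, h3, sub_self, if_pos (dvd_zero _)]
    · rw [if_neg h3, if_neg, mul_zero]
      intro hd
      obtain ⟨k, hk⟩ := hd
      have hk0 : k = 0 := by
        by_contra hk0
        have h4 : (2 * X + 1 : ℤ) ≤ |(N' : ℤ) - N| := by
          rw [hk, abs_mul]
          push_cast
          rw [abs_of_nonneg (by positivity : (0 : ℤ) ≤ 2 * (X : ℤ) + 1)]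
          have := Int.one_le_abs hk0
          nlinarith
        have h5 : |(N' : ℤ) - N| < 2 * X + 1 := by
          rw [abs_lt]; omega
        omega
      rw [hk0, mul_zero] at hk
      omega
  rw [sum_congr rfl h2, sum_ite_eq' _ N, if_pos hN]
  field_simp

/-- **The mean square of a convolution over a flat family.** -/
theorem cv_flat {C η : ℝ} (hC : 0 ≤ C) (hη : 0 ≤ η) (X : ℕ) {s : Finset J} {v : J → ℕ}
    (h : Flat C η (2 * X + 1) s v) (hv : ∀ j ∈ s, 1 ≤ v j ∧ v j ≤ X) (a b : ℕ → ℂ) (δ : ℝ)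
    (hδ : ∀ α : ℝ, ‖∑ m ∈ Icc 1 X, a m * ee ((m : ℝ) * α)‖ ≤ δ) :
    ∑ j ∈ s, ‖∑ n ∈ Ico 1 (v j), b n * a (v j - n)‖ ^ 2 ≤
      s.card * ((1 + 4 * C * (1 + Real.log ((2 * X + 1 : ℕ) : ℝ))) * (δ ^ 2 * (∑ n ∈ Icc 1 X, ‖b n‖ ^ 2) / ((2 * X + 1 : ℕ) : ℝ)) +
        η * ((∑ n ∈ Icc 1 X, ‖a n‖ ^ 2) * ∑ n ∈ Icc 1 X, ‖b n‖ ^ 2)) := by
  obtain ⟨M, hM⟩ : ∃ M, M = 2 * X + 1 := ⟨_, rfl⟩
  have hM0 : (0 : ℝ) < M := by exact_mod_cast (by omega : 0 < M)
  obtain ⟨G, hG⟩ : ∃ G : ℕ → ℂ, G = fun t : ℕ => ∑ N' ∈ Icc 1 (2 * X), cv X a b N' *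
      ee ((t : ℝ) * ((((1 : ℤ) * N' : ℤ) : ℝ) / (2 * X + 1 : ℕ))) := ⟨_, rfl⟩
  have hmain := dual_ms hC hη h (fun t => 1 / ((2 * X + 1 : ℕ) : ℂ) * G t)
  have e1 : ∑ j ∈ s, ‖∑ n ∈ Ico 1 (v j), b n * a (v j - n)‖ ^ 2 =
      ∑ j ∈ s, ‖∑ t ∈ range (2 * X + 1), (1 / ((2 * X + 1 : ℕ) : ℂ) * G t) * ee (-((t : ℝ) / (2 * X + 1 : ℕ) * v j))‖ ^ 2 := by
    refine sum_congr rfl fun j hj => ?_
    obtain ⟨hv1, hv2⟩ := hv j hj
    rw [← cv_eq X a b hv2, inv_cv X a b (v j) (mem_Icc.2 ⟨hv1, by omega⟩), hG]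
  rw [e1]
  refine hmain.trans ?_
  have hGf : ∀ t, G t = (∑ m ∈ Icc 1 X, a m * ee ((t : ℝ) * ((((1 : ℤ) * m : ℤ) : ℝ) / (2 * X + 1 : ℕ)))) *
      (∑ n ∈ Icc 1 X, b n * ee ((t : ℝ) * ((((1 : ℤ) * n : ℤ) : ℝ) / (2 * X + 1 : ℕ)))) := by
    intro t
    rw [hG]
    exact cv_fourier X (2 * X + 1) a b t
  have p1 := parseval_Icc X (2 * X + 1) (by omega) (by omega) a 1 (Or.inl rfl)
  have p2 := parseval_Icc X (2 * X + 1) (by omega) (by omega) b 1 (Or.inl rfl)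
  have hsq : ∑ t ∈ range (2 * X + 1), ‖G t‖ ^ 2 ≤ δ ^ 2 * (M * ∑ n ∈ Icc 1 X, ‖b n‖ ^ 2) := by
    rw [hM, ← p2, mul_sum]
    refine sum_le_sum fun t _ => ?_
    rw [hGf, norm_mul, mul_pow]
    apply mul_le_mul_of_nonneg_right _ (by positivity)
    apply pow_le_pow_left₀ (norm_nonneg _)
    have h4 := hδ ((t : ℝ) / (2 * X + 1 : ℕ))
    refine le_trans (le_of_eq ?_) h4
    congr 1
    apply sum_congr rfl
    intro m _
    congr 2
    push_cast
    ring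
  have hl1 : (∑ t ∈ range (2 * X + 1), ‖G t‖) ^ 2 ≤ (M : ℝ) ^ 2 * ((∑ n ∈ Icc 1 X, ‖a n‖ ^ 2) * ∑ n ∈ Icc 1 X, ‖b n‖ ^ 2) := by
    have h5 : ∑ t ∈ range (2 * X + 1), ‖G t‖ = ∑ t ∈ range (2 * X + 1),
        ‖∑ m ∈ Icc 1 X, a m * ee ((t : ℝ) * ((((1 : ℤ) * m : ℤ) : ℝ) / (2 * X + 1 : ℕ)))‖ *
        ‖∑ n ∈ Icc 1 X, b n * ee ((t : ℝ) * ((((1 : ℤ) * n : ℤ) : ℝ) / (2 * X + 1 : ℕ)))‖ := by
      refine sum_congr rfl fun t _ => ?_
      rw [hGf, norm_mul]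
    rw [h5]
    refine (sum_mul_sq_le_sq_mul_sq _ _ _).trans (le_of_eq ?_)
    rw [p1, p2, hM]
    ring
  have hnorm : ∀ t, ‖1 / ((2 * X + 1 : ℕ) : ℂ) * G t‖ = 1 / M * ‖G t‖ := by
    intro t
    rw [norm_mul, norm_div, norm_one, Complex.norm_natCast, hM]
  simp_rw [hnorm, mul_pow, ← mul_sum]
  refine mul_le_mul_of_nonneg_left ?_ (Nat.cast_nonneg _)
  have hlog : 0 ≤ Real.log ((2 * X + 1 : ℕ) : ℝ) := Real.log_nonneg (by exact_mod_cast (by omega : 1 ≤ 2 * X + 1))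
  apply add_le_add
  · apply mul_le_mul_of_nonneg_left _ (by positivity)
    calc (1 / (M : ℝ)) ^ 2 * ∑ t ∈ range (2 * X + 1), ‖G t‖ ^ 2 ≤
          (1 / (M : ℝ)) ^ 2 * (δ ^ 2 * (M * ∑ n ∈ Icc 1 X, ‖b n‖ ^ 2)) := mul_le_mul_of_nonneg_left hsq (by positivity)
      _ = _ := by rw [← hM]; field_simp
  · apply mul_le_mul_of_nonneg_left _ hη
    calc (1 / (M : ℝ) * ∑ t ∈ range (2 * X + 1), ‖G t‖) ^ 2 =
          (1 / (M : ℝ)) ^ 2 * (∑ t ∈ range (2 * X + 1), ‖G t‖) ^ 2 := by ring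
      _ ≤ (1 / (M : ℝ)) ^ 2 * ((M : ℝ) ^ 2 * ((∑ n ∈ Icc 1 X, ‖a n‖ ^ 2) * ∑ n ∈ Icc 1 X, ‖b n‖ ^ 2)) :=
          mul_le_mul_of_nonneg_left hl1 (by positivity)
      _ = _ := by field_simp

end Pool.Agent.N193.DE
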